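import Pool.Agent.Helper91.CPX.Defs

/-!
TU-08. In a vector with a large entry and small gcd some entry has no small ratio to the large one.

Proof. Suppose not. Then for every `l ≠ j` there are `r_l, s_l`, not both zero, `|r_l|, |s_l| ≤ 2 L`, with `a j * r_l = a l * s_l`: if `a j + a l = 0` take
`r = 1, s = -1`; otherwise `a j * q = (a j + a l) * p` with `|p|, |q| ≤ L` not both zero and `r = q - p`, `s = p` (if both are zero then
`p = q = 0`). As `a j ≠ 0` and `a l ≠ 0` both are nonzero. Let `Π = ∏_{l ≠ j} s_l`, `0 < |Π| ≤ (2 L)^(n+1)`. For all `l ≠ j`: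
`a l * Π = (a l * s_l) * ∏_{l' ≠ l, j} s_l' = a j * r_l * ∏ ...`, so `a j ∣ a l * Π` for all `l` (also `l = j`). Let `g` be the gcd of the `a l`
(`Finset.gcd`, `Finset.exists_gcd_eq_sum_mul`-like Bezout, or `Finset.gcd_mul_left`/`Finset.dvd_gcd`: `a j ∣ gcd (a l * Π) = |Π| * gcd (a l)` up to a unit). Hence
`|a j| ≤ |Π| * |g| ≤ (2 L)^(n+1) * G`, contradiction.
-/

set_option autoImplicit false

open Pool.Agent.Helper91.CPX

namespace Pool.Agent.Helper24.TU

theorem pick {n : ℕ} (a : Fin (n + 2) → ℤ) (ha : ∀ i, a i ≠ 0) (G L : ℤ)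
    (hG : ∀ g : ℤ, (∀ i, g ∣ a i) → |g| ≤ G) (hL : 1 ≤ L) (j : Fin (n + 2))
    (hj : G * (2 * L) ^ (n + 1) < |a j|) :
    ∃ l, j ≠ l ∧ a j + a l ≠ 0 ∧ NoSmallRatio (a j) (a j + a l) L := by
  by_contra hcon
  have hs : ∀ l, ∃ s : ℤ, s ≠ 0 ∧ |s| ≤ 2 * L ∧ a j ∣ a l * s := by
    intro l
    by_cases hjl : j = l
    · refine ⟨1, one_ne_zero, ?_, ?_⟩
      · rw [abs_one]; omega
      · rw [hjl, mul_one]
    · by_cases h0 : a j + a l = 0
      · refine ⟨1, one_ne_zero, ?_, ⟨-1, ?_⟩⟩
        · rw [abs_one]; omega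
        · have : a l = - a j := by omega
          rw [this]; ring
      · have h1 : ¬ NoSmallRatio (a j) (a j + a l) L := fun h => hcon ⟨l, hjl, h0, h⟩
        unfold NoSmallRatio at h1
        push Not at h1
        obtain ⟨p, q, hp, hq, he, hpq⟩ := h1
        have hp0 : p ≠ 0 := by
          intro hp0
          rw [hp0, mul_zero] at he
          rcases mul_eq_zero.1 he with h2 | h2
          · exact ha j h2
          · exact hpq hp0 h2
        refine ⟨p, hp0, by omega, ⟨q - p, ?_⟩⟩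
        have : a j * q = a j * p + a l * p := by rw [he]; ring
        linarith [this, mul_sub (a j) q p]
  choose s hs0 hsL hsd using hs
  -- replace the value at `j` by `1`
  set P : ℤ := ∏ l ∈ Finset.univ.erase j, s l with hP
  have hP0 : P ≠ 0 := Finset.prod_ne_zero_iff.2 fun l _ => hs0 l
  have hPL : |P| ≤ (2 * L) ^ (n + 1) := by
    rw [hP, Finset.abs_prod]
    calc ∏ l ∈ Finset.univ.erase j, |s l| ≤ ∏ _l ∈ Finset.univ.erase j, (2 * L) :=
          Finset.prod_le_prod (fun l _ => abs_nonneg _) fun l _ => hsL l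
      _ = (2 * L) ^ (n + 1) := by
          rw [Finset.prod_const, Finset.card_erase_of_mem (Finset.mem_univ j), Finset.card_univ,
            Fintype.card_fin]
          rfl
  have hd : ∀ l, a j ∣ a l * P := by
    intro l
    by_cases hjl : l = j
    · rw [hjl]; exact dvd_mul_right _ _
    · have hmem : l ∈ Finset.univ.erase j := Finset.mem_erase.2 ⟨hjl, Finset.mem_univ l⟩
      have h1 : P = s l * ∏ l' ∈ (Finset.univ.erase j).erase l, s l' := by
        rw [hP, Finset.mul_prod_erase _ _ hmem]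
      rw [h1, ← mul_assoc]
      exact (hsd l).mul_right _
  have hg : a j ∣ (Finset.univ.gcd a) * P := by
    have h1 : a j ∣ Finset.univ.gcd fun l => a l * P := Finset.dvd_gcd fun l _ => hd l
    rw [Finset.gcd_mul_right] at h1
    exact h1.trans (mul_dvd_mul_left _ (normalize_dvd_iff.2 dvd_rfl))
  have hg0 : Finset.univ.gcd a ≠ 0 := by
    intro h
    rw [Finset.gcd_eq_zero_iff] at h
    exact ha j (h j (Finset.mem_univ j))
  have hgG : |Finset.univ.gcd a| ≤ G := hG _ fun i => Finset.gcd_dvd (Finset.mem_univ i)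
  have h1 : |a j| ≤ |Finset.univ.gcd a * P| :=
    Int.le_of_dvd (abs_pos.2 (mul_ne_zero hg0 hP0)) ((abs_dvd_abs _ _).2 hg)
  rw [abs_mul] at h1
  have h2 : |Finset.univ.gcd a| * |P| ≤ G * (2 * L) ^ (n + 1) :=
    mul_le_mul hgG hPL (abs_nonneg _) ((abs_nonneg _).trans hgG)
  linarith

end Pool.Agent.Helper24.TU
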