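import Pool.Agent.Helper24.TU.Defs

/-!
TU-01. The number of integers of small radical.

Proof. Let `δ = min (ε / 2) 1`, `C0` the constant of `smooth_count` for `δ`, `R0 = ∏_{p ∈ S prime} p`. Split `Rset S Y N` by the value
`R = radS S a ∈ [1, Y]` and by the sign. For fixed `R` all primes of `|a|` divide `R * R0` (a prime of `|a|` in `S` divides `R0`,
outside `S` it divides `R`), so by `smooth_count` there are at most `C0 N^δ (R R0)^δ` values `|a|`; `R ≤ |a| ≤ N` (a product of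
distinct primes dividing `|a|` divides `|a|`), so this is at most `C0 R0^δ N^(2 δ) ≤ C0 R0^δ N^ε`. Sum over `R ≤ Y`, times 2 for the sign:
`C = 2 C0 R0^δ`. (Compare with `small_rad` in `Helper91/CPX/Smooth.lean`.)
-/

set_option autoImplicit false

open Pool.Agent.Helper87.Camp Pool.Agent.Helper10 Pool.Agent.Helper91.CPX

namespace Pool.Agent.Helper24.TU

private lemma radS_le_natAbs (S : Finset ℕ) (a : ℤ) (ha : a ≠ 0) : radS S a ≤ a.natAbs := by
  apply Nat.le_of_dvd (Int.natAbs_pos.2 ha)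
  unfold radS
  refine dvd_trans (Finset.prod_dvd_prod_of_subset _ _ (fun p => p) (Finset.filter_subset _ _)) ?_
  exact Nat.prod_primeFactors_dvd _

theorem rset_count (S : Finset ℕ) (ε : ℝ) (hε : 0 < ε) :
    ∃ C : ℝ, 1 ≤ C ∧ ∀ Y N : ℕ, 1 ≤ Y → 1 ≤ N →
      ((Rset S Y N).card : ℝ) ≤ C * ((Y : ℝ) * (N : ℝ) ^ ε) := by
  set δ : ℝ := ε / 2 with hδ
  have hδ0 : 0 < δ := by positivity
  obtain ⟨C0, hC01, hC0⟩ := smooth_count δ hδ0
  have hC0p : 0 < C0 := by linarith
  set R0 : ℕ := ∏ p ∈ S.filter Nat.Prime, p with hR0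
  have hR01 : 1 ≤ R0 := by
    rw [hR0]
    apply Nat.one_le_iff_ne_zero.2
    rw [Finset.prod_ne_zero_iff]
    intro p hp
    exact (Finset.mem_filter.1 hp).2.ne_zero
  have hR01' : (1 : ℝ) ≤ R0 := by exact_mod_cast hR01
  have hR0δ : 1 ≤ (R0 : ℝ) ^ δ := Real.one_le_rpow hR01' hδ0.le
  have hCC : 1 ≤ C0 * (R0 : ℝ) ^ δ := by nlinarith
  refine ⟨2 * (C0 * (R0 : ℝ) ^ δ), by linarith, ?_⟩
  intro Y N hY hN
  have hN1 : (1 : ℝ) ≤ N := by exact_mod_cast hN
  have hN0 : (0 : ℝ) < N := by linarith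
  -- the fibres
  have hfib : ∀ R ∈ Finset.Icc 1 Y,
      (((Rset S Y N).filter (fun a => radS S a = R)).card : ℝ) ≤
        2 * (C0 * (R0 : ℝ) ^ δ) * (N : ℝ) ^ ε := by
    intro R hR
    rw [Finset.mem_Icc] at hR
    rcases Finset.eq_empty_or_nonempty ((Rset S Y N).filter (fun a => radS S a = R)) with he | ⟨a0, ha0⟩
    · rw [he]
      simp only [Finset.card_empty, Nat.cast_zero]
      positivity
    have hRN : R ≤ N := by
      rw [Finset.mem_filter, mem_Rset] at ha0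
      obtain ⟨⟨b1, b2, b3⟩, b4⟩ := ha0
      have := radS_le_natAbs S a0 b1
      omega
    set F : Finset ℕ := ((Rset S Y N).filter (fun a => radS S a = R)).image Int.natAbs with hF
    have h1 : ((Rset S Y N).filter (fun a => radS S a = R)).card ≤ 2 * F.card := by
      have hsub : (Rset S Y N).filter (fun a => radS S a = R) ⊆
          F.image (fun v : ℕ => (v : ℤ)) ∪ F.image (fun v : ℕ => -(v : ℤ)) := by
        intro a ha
        have haF : a.natAbs ∈ F := Finset.mem_image_of_mem _ ha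
        rw [Finset.mem_union, Finset.mem_image, Finset.mem_image]
        rcases Int.natAbs_eq a with h | h
        · exact Or.inl ⟨a.natAbs, haF, h.symm⟩
        · exact Or.inr ⟨a.natAbs, haF, h.symm⟩
      calc ((Rset S Y N).filter (fun a => radS S a = R)).card
          ≤ (F.image (fun v : ℕ => (v : ℤ)) ∪ F.image (fun v : ℕ => -(v : ℤ))).card :=
            Finset.card_le_card hsub
        _ ≤ (F.image (fun v : ℕ => (v : ℤ))).card + (F.image (fun v : ℕ => -(v : ℤ))).card :=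
            Finset.card_union_le _ _
        _ ≤ F.card + F.card := Nat.add_le_add Finset.card_image_le Finset.card_image_le
        _ = 2 * F.card := by ring
    have h2 := hC0 (R * R0) (Nat.mul_pos hR.1 hR01) N hN F (by
      intro v hv
      rw [hF, Finset.mem_image] at hv
      obtain ⟨a, ha, rfl⟩ := hv
      rw [Finset.mem_filter, mem_Rset] at ha
      obtain ⟨⟨b1, b2, b3⟩, b4⟩ := ha
      have b5 : 0 < a.natAbs := Int.natAbs_pos.2 b1
      refine ⟨b5, b2, ?_⟩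
      intro p hp hpv
      by_cases hpS : p ∈ S
      · refine Dvd.dvd.mul_left ?_ R
        exact Finset.dvd_prod_of_mem (fun x => x) (Finset.mem_filter.2 ⟨hpS, hp⟩)
      · refine Dvd.dvd.mul_right ?_ R0
        rw [← b4]
        unfold radS
        exact Finset.dvd_prod_of_mem (fun x => x)
          (Finset.mem_filter.2 ⟨Nat.mem_primeFactors.2 ⟨hp, hpv, by omega⟩, hpS⟩))
    have h3 : ((R * R0 : ℕ) : ℝ) ^ δ ≤ (N : ℝ) ^ δ * (R0 : ℝ) ^ δ := by
      rw [Nat.cast_mul, Real.mul_rpow (Nat.cast_nonneg _) (Nat.cast_nonneg _)]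
      apply mul_le_mul_of_nonneg_right _ (by linarith)
      exact Real.rpow_le_rpow (Nat.cast_nonneg _) (by exact_mod_cast hRN) hδ0.le
    have h4 : (N : ℝ) ^ δ * (N : ℝ) ^ δ = (N : ℝ) ^ ε := by
      rw [← Real.rpow_add hN0, hδ]
      congr 1
      ring
    have h1' : (((Rset S Y N).filter (fun a => radS S a = R)).card : ℝ) ≤ 2 * (F.card : ℝ) := by
      exact_mod_cast h1
    have hNδ : 0 ≤ (N : ℝ) ^ δ := Real.rpow_nonneg hN0.le _
    calc (((Rset S Y N).filter (fun a => radS S a = R)).card : ℝ)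
        ≤ 2 * (F.card : ℝ) := h1'
      _ ≤ 2 * (C0 * (N : ℝ) ^ δ * ((R * R0 : ℕ) : ℝ) ^ δ) := by linarith
      _ ≤ 2 * (C0 * (N : ℝ) ^ δ * ((N : ℝ) ^ δ * (R0 : ℝ) ^ δ)) := by
          have : C0 * (N : ℝ) ^ δ * ((R * R0 : ℕ) : ℝ) ^ δ ≤
              C0 * (N : ℝ) ^ δ * ((N : ℝ) ^ δ * (R0 : ℝ) ^ δ) :=
            mul_le_mul_of_nonneg_left h3 (by positivity)
          linarith
      _ = 2 * (C0 * (R0 : ℝ) ^ δ) * ((N : ℝ) ^ δ * (N : ℝ) ^ δ) := by ring
      _ = 2 * (C0 * (R0 : ℝ) ^ δ) * (N : ℝ) ^ ε := by rw [h4]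
  have hmaps : ∀ a ∈ Rset S Y N, radS S a ∈ Finset.Icc 1 Y := by
    intro a ha
    rw [mem_Rset] at ha
    rw [Finset.mem_Icc]
    exact ⟨radS_pos S a, ha.2.2⟩
  have h1 : (Rset S Y N).card = ∑ R ∈ Finset.Icc 1 Y,
      ((Rset S Y N).filter (fun a => radS S a = R)).card :=
    Finset.card_eq_sum_card_fiberwise hmaps
  rw [h1]
  push_cast
  calc ∑ R ∈ Finset.Icc 1 Y, (((Rset S Y N).filter (fun a => radS S a = R)).card : ℝ)
      ≤ ∑ _R ∈ Finset.Icc 1 Y, 2 * (C0 * (R0 : ℝ) ^ δ) * (N : ℝ) ^ ε := Finset.sum_le_sum hfib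
    _ = 2 * (C0 * (R0 : ℝ) ^ δ) * ((Y : ℝ) * (N : ℝ) ^ ε) := by
        rw [Finset.sum_const, Nat.card_Icc, nsmul_eq_mul]
        have : ((Y + 1 - 1 : ℕ) : ℝ) = Y := by norm_num
        rw [this]
        ring

end Pool.Agent.Helper24.TU
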