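import Pool.Agent.Helper24.TU.RkR
import Pool.Agent.Helper24.TU.Cnt

/-!
TU-09. Regime 2: all `radM` are small.

Proof. `m0` from `rkR M H hM hH ε2`. For `a ∈ T` choose `j, l` (at most `(n+2)^2` pairs), split by them; for fixed `j ≠ l` fix the `a h`, `h ≠ j, l` (`n` indices, at most
`(C1 X N^δ1)^n` choices, `rset_count` with `δ1 = δ/(2 n + 2)`); `k = - ∑_{h ≠ j, l} a h = a j + a l` is then fixed, and `a j` lies in a set `F` as in `rkR`
(`k - a j = a l`): at most `C D^4 X^ε2 N^(δ/2)` values, `a l` is determined. (`card_le_real` from `Helper87/Camp/Power.lean`, the pattern of `regime1`,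
`regime2` in `Helper91/CPX`.) Total exponent of `X`: `n + ε2`, of `N`: `n δ1 + δ/2 ≤ δ`.
-/

set_option autoImplicit false

open Pool.Agent.Helper87.Camp Pool.Agent.Helper10 Pool.Agent.Helper91.CPX

namespace Pool.Agent.Helper24.TU

private lemma r2_piF_card (n : ℕ) (A : Finset ℤ) :
    ((Fintype.piFinset (fun _ : Fin n => A)).card : ℝ) = (A.card : ℝ) ^ n := by
  rw [Fintype.card_piFinset]
  simp

private lemma r2_sum {n : ℕ} (j : Fin (n + 2)) (l : Fin (n + 1)) (a : Fin (n + 2) → ℤ) :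
    ∑ i, a i = a j + (a (j.succAbove l) + ∑ i : Fin n, a (j.succAbove (l.succAbove i))) := by
  rw [Fin.sum_univ_succAbove a j, Fin.sum_univ_succAbove (fun i => a (j.succAbove i)) l]

theorem regime2R (n M H : ℕ) (hn : 1 ≤ n) (hM : 1 ≤ M) (hH : 1 ≤ H) (ε2 : ℝ) (hε2 : 0 < ε2) :
    ∃ m0 : ℕ, 1 ≤ m0 ∧ ∀ m : ℕ, m0 ≤ m → ∀ S : Finset ℕ, ∀ δ : ℝ, 0 < δ → ∃ C : ℝ, 1 ≤ C ∧
      ∀ N X W D : ℕ, 1 ≤ N → 2 ≤ X → W ≤ X → 1 ≤ D → X ≤ W ^ H → N ≤ W ^ (H * m) →
      ∀ T : Finset (Fin (n + 2) → ℤ),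
      (∀ a ∈ T, (∀ i, a i ∈ Rset S X N) ∧ ∑ i, a i = 0 ∧ (∀ i, radM S M W (a i) ≤ D) ∧
        ∃ j l, j ≠ l ∧ NoSmallRatio (a j) (a j + a l) ((X : ℤ) ^ m0)) →
      (T.card : ℝ) ≤ C * (D : ℝ) ^ 4 * ((X : ℝ) ^ ((n : ℝ) + ε2) * (N : ℝ) ^ δ) := by
  classical
  obtain ⟨m0, hm0, hrk⟩ := rkR M H hM hH ε2 hε2
  refine ⟨m0, hm0, fun m hm S δ hδ => ?_⟩
  obtain ⟨C2, hC2, hrk⟩ := hrk m hm S (δ / 2) (by positivity)
  set δ1 : ℝ := δ / (2 * (n + 1)) with hδ1
  have hδ10 : 0 < δ1 := by positivity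
  obtain ⟨C1, hC1, hA⟩ := rset_count S δ1 hδ10
  have hC1n : (1 : ℝ) ≤ C1 ^ n := one_le_pow₀ hC1
  refine ⟨((n : ℝ) + 2) * ((n : ℝ) + 1) * (C1 ^ n * C2), ?_, ?_⟩
  · have h0 : (0 : ℝ) ≤ n := Nat.cast_nonneg n
    have h1 : (1 : ℝ) ≤ C1 ^ n * C2 := by nlinarith
    have h2 : (1 : ℝ) ≤ ((n : ℝ) + 2) * ((n : ℝ) + 1) := by nlinarith
    nlinarith
  intro N X W D hN hX hWX hD hXW hNW T hT
  have hNR : (1 : ℝ) ≤ N := by exact_mod_cast hN
  have hN0 : (0 : ℝ) < N := by linarith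
  have hX1 : 1 ≤ X := by omega
  have hX0 : (0 : ℝ) < X := by exact_mod_cast hX1
  have hAc := hA X N hX1 hN
  have hAn : ((Rset S X N).card : ℝ) ^ n ≤
      C1 ^ n * ((X : ℝ) ^ (n : ℝ) * (N : ℝ) ^ (δ1 * n)) := by
    have h1 := pow_le_pow_left₀ (Nat.cast_nonneg _) hAc n
    rwa [mul_pow, mul_pow, ← Real.rpow_mul_natCast hN0.le, ← Real.rpow_natCast (X : ℝ) n] at h1
  have hexp : δ1 * n + δ / 2 ≤ δ := by
    have h0 : (0 : ℝ) ≤ n := Nat.cast_nonneg n
    have h1 : δ1 * n ≤ δ / 2 := by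
      rw [hδ1, div_mul_eq_mul_div, div_le_div_iff₀ (by positivity) (by positivity)]
      nlinarith
    linarith
  set R : ℝ := C1 ^ n * C2 * (D : ℝ) ^ 4 * ((X : ℝ) ^ ((n : ℝ) + ε2) * (N : ℝ) ^ δ) with hR
  have hD4 : (0 : ℝ) ≤ (D : ℝ) ^ 4 := by positivity
  have hpair : ∀ (j : Fin (n + 2)) (l : Fin (n + 1)),
      ((T.filter (fun a => NoSmallRatio (a j) (a j + a (j.succAbove l)) ((X : ℤ) ^ m0))).card : ℝ)
        ≤ R := by
    intro j l
    set T' := T.filter (fun a => NoSmallRatio (a j) (a j + a (j.succAbove l)) ((X : ℤ) ^ m0))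
      with hT'
    set B : ℝ := C2 * (D : ℝ) ^ 4 * ((X : ℝ) ^ ε2 * (N : ℝ) ^ (δ / 2)) with hB
    have hB0 : 0 ≤ B := by positivity
    have h1 : T'.card ≤ ⌊B⌋₊ * (Fintype.piFinset (fun _ : Fin n => Rset S X N)).card := by
      refine Finset.card_le_mul_card_image_of_maps_to
        (f := fun a => fun i : Fin n => a (j.succAbove (l.succAbove i))) ?_ _ ?_
      · intro a ha
        rw [Fintype.mem_piFinset]
        intro i
        exact (hT a (Finset.mem_of_mem_filter a ha)).1 _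
      · intro t _
        apply Nat.le_floor
        set Ft := T'.filter (fun a => (fun i : Fin n => a (j.succAbove (l.succAbove i))) = t)
          with hFt
        have hinj : Set.InjOn (fun a : Fin (n + 2) → ℤ => a j) (Ft : Set (Fin (n + 2) → ℤ)) := by
          intro a ha b hb hab
          rw [Finset.mem_coe, hFt, Finset.mem_filter, hT', Finset.mem_filter] at ha hb
          have h2 := (hT a ha.1.1).2.1
          have h3 := (hT b hb.1.1).2.1
          rw [r2_sum j l] at h2 h3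
          have h4 : ∀ i : Fin n, a (j.succAbove (l.succAbove i)) =
              b (j.succAbove (l.succAbove i)) := fun i =>
            (congrFun ha.2 i).trans (congrFun hb.2 i).symm
          have hab' : a j = b j := hab
          rw [Finset.sum_congr rfl (fun i _ => h4 i)] at h2
          have hl : a (j.succAbove l) = b (j.succAbove l) := by linarith
          funext i
          rcases Fin.eq_self_or_eq_succAbove j i with rfl | ⟨i', rfl⟩
          · exact hab'
          · rcases Fin.eq_self_or_eq_succAbove l i' with rfl | ⟨i'', rfl⟩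
            · exact hl
            · exact h4 i''
        have h2 := hrk N X W D hN hX hWX hD hXW hNW (-∑ i, t i) (Ft.image (fun a => a j)) (by
          intro z hz
          rw [Finset.mem_image] at hz
          obtain ⟨a, ha, rfl⟩ := hz
          rw [hFt, Finset.mem_filter, hT', Finset.mem_filter] at ha
          obtain ⟨h3, h4, h5, -⟩ := hT a ha.1.1
          rw [r2_sum j l] at h4
          have h6 : -∑ i, t i = a j + a (j.succAbove l) := by
            rw [← ha.2]
            linarith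
          have h7 : -∑ i, t i - a j = a (j.succAbove l) := by
            rw [h6]
            ring
          refine ⟨h3 j, ?_, h5 j, ?_, ?_⟩
          · rw [h7]
            exact h3 _
          · rw [h7]
            exact h5 _
          · rw [h6]
            exact ha.1.2)
        rwa [Finset.card_image_of_injOn hinj] at h2
    have h2 : (T'.card : ℝ) ≤ B * ((Rset S X N).card : ℝ) ^ n := by
      have h3 : (T'.card : ℝ) ≤
          ((⌊B⌋₊ * (Fintype.piFinset (fun _ : Fin n => Rset S X N)).card : ℕ) : ℝ) := by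
        exact_mod_cast h1
      rw [Nat.cast_mul, r2_piF_card] at h3
      exact le_trans h3 (mul_le_mul_of_nonneg_right (Nat.floor_le hB0) (by positivity))
    refine le_trans h2 (le_trans (mul_le_mul_of_nonneg_left hAn hB0) ?_)
    have h4 : B * (C1 ^ n * ((X : ℝ) ^ (n : ℝ) * (N : ℝ) ^ (δ1 * n))) =
        C1 ^ n * C2 * (D : ℝ) ^ 4 * ((X : ℝ) ^ ((n : ℝ) + ε2) * (N : ℝ) ^ (δ1 * n + δ / 2)) := by
      rw [hB, Real.rpow_add hX0, Real.rpow_add hN0]
      ring
    rw [h4, hR]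
    refine mul_le_mul_of_nonneg_left ?_ (by positivity)
    refine mul_le_mul_of_nonneg_left ?_ (by positivity)
    exact Real.rpow_le_rpow_of_exponent_le hNR hexp
  have hcov : T ⊆ (Finset.univ : Finset (Fin (n + 2) × Fin (n + 1))).biUnion (fun q =>
      T.filter (fun a => NoSmallRatio (a q.1) (a q.1 + a (q.1.succAbove q.2)) ((X : ℤ) ^ m0))) := by
    intro a ha
    obtain ⟨-, -, -, j, l, hjl, hns⟩ := hT a ha
    obtain ⟨l', rfl⟩ := Fin.exists_succAbove_eq (Ne.symm hjl)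
    rw [Finset.mem_biUnion]
    exact ⟨(j, l'), Finset.mem_univ _, Finset.mem_filter.2 ⟨ha, hns⟩⟩
  have h1 : (T.card : ℝ) ≤ ∑ q : Fin (n + 2) × Fin (n + 1), ((T.filter (fun a =>
      NoSmallRatio (a q.1) (a q.1 + a (q.1.succAbove q.2)) ((X : ℤ) ^ m0))).card : ℝ) := by
    have h2 := le_trans (Finset.card_le_card hcov) Finset.card_biUnion_le
    exact_mod_cast h2
  have h2 : (T.card : ℝ) ≤ ∑ _q : Fin (n + 2) × Fin (n + 1), R :=
    le_trans h1 (Finset.sum_le_sum fun q _ => hpair q.1 q.2)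
  rw [Finset.sum_const, Finset.card_univ, Fintype.card_prod, Fintype.card_fin, Fintype.card_fin,
    nsmul_eq_mul] at h2
  refine le_trans h2 (le_of_eq ?_)
  rw [hR]
  push_cast
  ring

end Pool.Agent.Helper24.TU
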