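import Pool.Agent.Helper24.TU.Reg1
import Pool.Agent.Helper24.TU.Reg2
import Pool.Agent.Helper24.TU.Pick
import Pool.Agent.Helper91.CPX.Greedy

/-!
TU-10. The count of solutions of `∑ a i = 0` with small radicals and one large entry.

Proof (as `Helper91/CPX/AP.lean`). `P = (n+2)^2`, `κ = min (ε/16) 1`, `H = ⌈4/κ⌉₊`, `M1 = ⌈5/κ⌉₊`, `M = P * M1`, `m0` from `regime2R n M H _ _ _ (ε/4)`, `lam0 = 1/(2 m0 (n+1))`. For `lam ≤ lam0`: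
`m = ⌈1/lam⌉₊ ≥ m0`, `E` with `2/(E+1) ≤ (ε/4) lam`, constants from `regime2R` (`δ = (ε/4) lam`) and `regime1R` (`(ε/4) lam`). For `N` smaller than some `N1 (lam, S, G)` the trivial bound
`(2 N1 + 1)^(n+2)`. For `N ≥ N1`: `X = ⌈N^lam⌉₊ + 1 ≤ 3 N^lam`, `W = ⌈N^(κ lam/2)⌉₊`, `D = ⌈N^(κ lam)⌉₊`, so `W ≤ X`, `X ≤ W^H`, `N ≤ W^(H m)`.
(A) all `radM S M W (a i) ≤ D`: with `L = X^m0` and the large entry `j`, `G (2 L)^(n+1) < |a j|`, `pick` gives `l`, `regime2R`: `C D^4 X^(n+ε/4) N^δ`.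
(B) otherwise `greedy` and `pair_sel` give `d ≤ D W`, `D ≤ d^P`, `d^M = (d^P)^M1 ≥ D^M1 ≥ N^(5 lam) ≥ (2^E X)^4`, `d^M ∣ a i`: `regime1R` with `V = D W`, `Y = X`.
-/

set_option autoImplicit false

open Pool.Agent.Helper87.Camp Pool.Agent.Helper10 Pool.Agent.Helper91.CPX

namespace Pool.Agent.Helper24.TU

/-- A real power of `N` is eventually larger than any constant. -/
private lemma ap_large (c : ℝ) (hc : 0 < c) (K : ℝ) :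
    ∃ N1 : ℕ, 1 ≤ N1 ∧ ∀ N : ℕ, N1 ≤ N → K ≤ (N : ℝ) ^ c := by
  have h := (tendsto_rpow_atTop hc).comp tendsto_natCast_atTop_atTop
  obtain ⟨N1, hN1⟩ := Filter.eventually_atTop.1 (h.eventually_ge_atTop K)
  exact ⟨max N1 1, le_max_right _ _, fun N hN => hN1 N (le_trans (le_max_left _ _) hN)⟩

/-- The trivial bound. -/
private lemma ap_triv (n N N1 : ℕ) (hN : N ≤ N1) (T : Finset (Fin (n + 2) → ℤ))
    (hT : ∀ a ∈ T, ∀ i, (a i).natAbs ≤ N) : (T.card : ℝ) ≤ (2 * (N1 : ℝ) + 1) ^ (n + 2) := by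
  classical
  have hsub : T ⊆ Fintype.piFinset fun _ : Fin (n + 2) => Finset.Icc (-(N1 : ℤ)) N1 := by
    intro a ha
    rw [Fintype.mem_piFinset]
    intro i
    have := hT a ha i
    rw [Finset.mem_Icc]
    omega
  have h1 := Finset.card_le_card hsub
  rw [Fintype.card_piFinset, Finset.prod_const, Finset.card_univ, Fintype.card_fin,
    Int.card_Icc] at h1
  have h2 : ((N1 : ℤ) + 1 - -(N1 : ℤ)).toNat = 2 * N1 + 1 := by omega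
  rw [h2] at h1
  exact_mod_cast h1

theorem ap_boundR (n : ℕ) (hn : 1 ≤ n) (ε : ℝ) (hε : 0 < ε) :
    ∃ lam0 : ℝ, 0 < lam0 ∧ ∀ lam : ℝ, 0 < lam → lam ≤ lam0 → ∀ (S : Finset ℕ) (G : ℕ),
      ∃ C : ℝ, 1 ≤ C ∧ ∀ N : ℕ, 1 ≤ N → ∀ T : Finset (Fin (n + 2) → ℤ),
      (∀ a ∈ T, (∀ i, a i ≠ 0 ∧ (a i).natAbs ≤ N ∧ (radS S (a i) : ℝ) ≤ (N : ℝ) ^ lam) ∧
        ∑ i, a i = 0 ∧ (∃ i, (N : ℤ) ≤ G * |a i|) ∧ (∀ g : ℤ, (∀ i, g ∣ a i) → |g| ≤ G) ∧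
        ∀ p : ℕ, p.Prime → p ∉ S → ∃ j l, j ≠ l ∧ ¬ (p : ℤ) ∣ a j ∧ ¬ (p : ℤ) ∣ a l) →
      (T.card : ℝ) ≤ C * (N : ℝ) ^ (((n : ℝ) + ε) * lam) := by
  classical
  obtain ⟨P, hP⟩ : ∃ P : ℕ, P = (n + 2) ^ 2 := ⟨_, rfl⟩
  have hP0 : P ≠ 0 := by rw [hP]; positivity
  have hP1 : 1 ≤ P := Nat.one_le_iff_ne_zero.2 hP0
  obtain ⟨κ, hκ0, hκε, hκ1⟩ : ∃ κ : ℝ, 0 < κ ∧ κ ≤ ε / 16 ∧ κ ≤ 1 :=
    ⟨min (ε / 16) 1, lt_min (by linarith) one_pos, min_le_left _ _, min_le_right _ _⟩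
  obtain ⟨H, hH, hHκ⟩ : ∃ H : ℕ, 1 ≤ H ∧ 4 ≤ κ * H := by
    refine ⟨⌈4 / κ⌉₊, ?_, ?_⟩
    · exact Nat.one_le_ceil_iff.2 (by positivity)
    · have h1 := Nat.le_ceil (4 / κ)
      rw [div_le_iff₀ hκ0] at h1
      linarith
  obtain ⟨M1, hM1, hM1κ⟩ : ∃ M1 : ℕ, 1 ≤ M1 ∧ 5 ≤ κ * M1 := by
    refine ⟨⌈5 / κ⌉₊, ?_, ?_⟩
    · exact Nat.one_le_ceil_iff.2 (by positivity)
    · have h1 := Nat.le_ceil (5 / κ)
      rw [div_le_iff₀ hκ0] at h1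
      linarith
  obtain ⟨M, hMdef⟩ : ∃ M : ℕ, M = P * M1 := ⟨_, rfl⟩
  have hM : 1 ≤ M := by rw [hMdef]; exact Nat.mul_pos hP1 hM1
  obtain ⟨m0, hm0, hreg2⟩ := regime2R n M H hn hM hH (ε / 4) (by linarith)
  have hm0R : (1 : ℝ) ≤ m0 := by exact_mod_cast hm0
  have hn0 : (0 : ℝ) ≤ n := Nat.cast_nonneg n
  refine ⟨1 / (2 * m0 * (n + 1)), by positivity, ?_⟩
  intro lam hlam hlam0 S G
  have hlam1 : lam * (m0 * (n + 1)) ≤ 1 / 2 := by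
    rw [le_div_iff₀ (by positivity)] at hlam0
    linarith
  obtain ⟨m, hmdef⟩ : ∃ m : ℕ, m = ⌈1 / lam⌉₊ := ⟨_, rfl⟩
  have hmlam : 1 ≤ lam * m := by
    have h1 := Nat.le_ceil (1 / lam)
    rw [← hmdef, div_le_iff₀ hlam] at h1
    linarith
  have hmm0 : m0 ≤ m := by
    have h1 : (m0 : ℝ) ≤ m := by
      have h2 : lam * m0 ≤ 1 / 2 := by
        have h3 : lam * m0 ≤ lam * (m0 * (n + 1)) := by
          apply mul_le_mul_of_nonneg_left _ hlam.le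
          nlinarith
        linarith
      have h3 : lam * m0 ≤ lam * m := by linarith
      exact le_of_mul_le_mul_left h3 hlam
    exact_mod_cast h1
  obtain ⟨E, hE, hEl⟩ : ∃ E : ℕ, 1 ≤ E ∧ 2 / ((E : ℝ) + 1) ≤ ε / 4 * lam := by
    refine ⟨⌈2 / (ε / 4 * lam)⌉₊, Nat.one_le_ceil_iff.2 (by positivity), ?_⟩
    have h1 := Nat.le_ceil (2 / (ε / 4 * lam))
    rw [div_le_iff₀ (by positivity)] at h1
    rw [div_le_iff₀ (by positivity)]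
    nlinarith [mul_pos (show (0 : ℝ) < ε / 4 by linarith) hlam]
  obtain ⟨C1, hC1, hc1⟩ := hreg2 m hmm0 S (ε / 4 * lam) (by positivity)
  obtain ⟨C2, hC2, hc2⟩ := regime1R n M E hn hM hE S (ε / 4 * lam) (by positivity)
  -- the threshold
  obtain ⟨Na, hNa1, hNa⟩ := ap_large lam hlam ((3 * 2 ^ E) ^ 4)
  obtain ⟨Nb, hNb1, hNb⟩ := ap_large (1 / 2) (by norm_num)
    ((G : ℝ) ^ 2 * (2 * 3 ^ m0) ^ (n + 1) + 1)
  obtain ⟨N1, hN1a, hN1b⟩ : ∃ N1 : ℕ, Na ≤ N1 ∧ Nb ≤ N1 :=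
    ⟨max Na Nb, le_max_left _ _, le_max_right _ _⟩
  have h16 : (1 : ℝ) ≤ 3 ^ ((n : ℝ) + ε / 4) := Real.one_le_rpow (by norm_num) (by positivity)
  obtain ⟨K1, hK1⟩ : ∃ K1 : ℝ, K1 = C1 * (2 ^ 4 * 3 ^ ((n : ℝ) + ε / 4)) := ⟨_, rfl⟩
  obtain ⟨K2, hK2⟩ : ∃ K2 : ℝ, K2 = C2 * (4 * 3 ^ n) := ⟨_, rfl⟩
  have hK10 : 0 ≤ K1 := by rw [hK1]; positivity
  have hK20 : 0 ≤ K2 := by rw [hK2]; positivity
  refine ⟨(2 * (N1 : ℝ) + 1) ^ (n + 2) + (K1 + K2), ?_, ?_⟩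
  · have h1 : (1 : ℝ) ≤ (2 * (N1 : ℝ) + 1) ^ (n + 2) :=
      one_le_pow₀ (by have : (0 : ℝ) ≤ N1 := Nat.cast_nonneg N1; linarith)
    linarith
  intro N hN T hT
  have hNR : (1 : ℝ) ≤ (N : ℝ) := by exact_mod_cast hN
  have hN0 : (0 : ℝ) < (N : ℝ) := by linarith
  have hpow1 : (1 : ℝ) ≤ (N : ℝ) ^ (((n : ℝ) + ε) * lam) :=
    Real.one_le_rpow hNR (by positivity)
  rcases le_or_gt N N1 with hNN1 | hNN1
  · have h1 := ap_triv n N N1 hNN1 T (fun a ha i => ((hT a ha).1 i).2.1)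
    have h2 : (0 : ℝ) ≤ (2 * (N1 : ℝ) + 1) ^ (n + 2) := by positivity
    calc (T.card : ℝ) ≤ (2 * (N1 : ℝ) + 1) ^ (n + 2) + (K1 + K2) := by linarith
      _ = ((2 * (N1 : ℝ) + 1) ^ (n + 2) + (K1 + K2)) * 1 := by ring
      _ ≤ _ := mul_le_mul_of_nonneg_left hpow1 (by positivity)
  -- the main case
  have hNa' := hNa N (by omega)
  have hNb' := hNb N (by omega)
  obtain ⟨y0, hy0⟩ : ∃ y0 : ℝ, y0 = (N : ℝ) ^ lam := ⟨_, rfl⟩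
  have hy01 : 1 ≤ y0 := by rw [hy0]; exact Real.one_le_rpow hNR hlam.le
  rw [← hy0] at hNa'
  obtain ⟨X, hX⟩ : ∃ X : ℕ, X = ⌈y0⌉₊ + 1 := ⟨_, rfl⟩
  have hXl : y0 ≤ (X : ℝ) := by
    have := Nat.le_ceil y0
    rw [hX]; push_cast; linarith
  have hXu : (X : ℝ) ≤ 3 * y0 := by
    have := Nat.ceil_lt_add_one (show 0 ≤ y0 by linarith)
    rw [hX]; push_cast; linarith
  have hX2 : 2 ≤ X := by
    have h1 : 1 ≤ ⌈y0⌉₊ := Nat.one_le_ceil_iff.2 (by linarith)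
    omega
  obtain ⟨w0, hw0⟩ : ∃ w0 : ℝ, w0 = (N : ℝ) ^ (κ * lam / 2) := ⟨_, rfl⟩
  have hw01 : 1 ≤ w0 := by rw [hw0]; exact Real.one_le_rpow hNR (by positivity)
  obtain ⟨W, hW⟩ : ∃ W : ℕ, W = ⌈w0⌉₊ := ⟨_, rfl⟩
  have hWl : w0 ≤ (W : ℝ) := by rw [hW]; exact Nat.le_ceil _
  have hWu : (W : ℝ) ≤ 2 * w0 := by
    have := Nat.ceil_lt_add_one (show 0 ≤ w0 by linarith)
    rw [hW]; linarith
  have hW1 : 1 ≤ W := by
    have : (1 : ℝ) ≤ (W : ℝ) := by linarith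
    exact_mod_cast this
  obtain ⟨d0, hd0⟩ : ∃ d0 : ℝ, d0 = (N : ℝ) ^ (κ * lam) := ⟨_, rfl⟩
  have hd01 : 1 ≤ d0 := by rw [hd0]; exact Real.one_le_rpow hNR (by positivity)
  obtain ⟨D, hD⟩ : ∃ D : ℕ, D = ⌈d0⌉₊ := ⟨_, rfl⟩
  have hDl : d0 ≤ (D : ℝ) := by rw [hD]; exact Nat.le_ceil _
  have hDu : (D : ℝ) ≤ 2 * d0 := by
    have := Nat.ceil_lt_add_one (show 0 ≤ d0 by linarith)
    rw [hD]; linarith
  have hD1 : 1 ≤ D := by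
    have : (1 : ℝ) ≤ (D : ℝ) := by linarith
    exact_mod_cast this
  have hWX : W ≤ X := by
    have h1 : w0 ≤ y0 := by
      rw [hw0, hy0]
      apply Real.rpow_le_rpow_of_exponent_le hNR
      nlinarith
    have h2 : ⌈w0⌉₊ ≤ ⌈y0⌉₊ := Nat.ceil_mono h1
    omega
  have h3E : (1 : ℝ) ≤ 2 ^ E := one_le_pow₀ (by norm_num)
  have h81 : (3 : ℝ) ≤ y0 := by
    have h1 : (3 : ℝ) ≤ (3 * 2 ^ E) ^ 4 := by
      have h2 : (3 : ℝ) ≤ 3 * 2 ^ E := by linarith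
      calc (3 : ℝ) ≤ 3 * 2 ^ E := h2
        _ = (3 * 2 ^ E) ^ 1 := (pow_one _).symm
        _ ≤ (3 * 2 ^ E) ^ 4 := pow_le_pow_right₀ (by linarith) (by norm_num)
    linarith
  have hXW : X ≤ W ^ H := by
    have h1 : (X : ℝ) ≤ (W : ℝ) ^ H := by
      calc (X : ℝ) ≤ 3 * y0 := hXu
        _ ≤ y0 * y0 := by nlinarith
        _ = (N : ℝ) ^ (lam + lam) := by rw [hy0, Real.rpow_add hN0]
        _ ≤ (N : ℝ) ^ (κ * lam / 2 * (H : ℝ)) := by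
            apply Real.rpow_le_rpow_of_exponent_le hNR
            nlinarith
        _ = w0 ^ H := by rw [hw0, Real.rpow_mul hN0.le, Real.rpow_natCast]
        _ ≤ (W : ℝ) ^ H := pow_le_pow_left₀ (by linarith) hWl _
    exact_mod_cast h1
  have hNW : N ≤ W ^ (H * m) := by
    have h1 : (N : ℝ) ≤ (W : ℝ) ^ (H * m) := by
      calc (N : ℝ) = (N : ℝ) ^ (1 : ℝ) := (Real.rpow_one _).symm
        _ ≤ (N : ℝ) ^ (κ * lam / 2 * ((H * m : ℕ) : ℝ)) := by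
          apply Real.rpow_le_rpow_of_exponent_le hNR
          push_cast
          have h2 : 4 * 1 ≤ (κ * H) * (lam * m) :=
            mul_le_mul hHκ hmlam (by norm_num) (by positivity)
          nlinarith
        _ = w0 ^ (H * m) := by rw [hw0, Real.rpow_mul hN0.le, Real.rpow_natCast]
        _ ≤ (W : ℝ) ^ (H * m) := pow_le_pow_left₀ (by linarith) hWl _
    exact_mod_cast h1
  -- `(2 ^ E X) ^ 4 ≤ D ^ M1`
  have hbig : (2 ^ E * X) ^ 4 ≤ D ^ M1 := by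
    have h1 : ((2 ^ E * (X : ℝ)) ^ 4) ≤ (D : ℝ) ^ M1 := by
      have h2 : y0 ^ 5 ≤ d0 ^ M1 := by
        have e1 : y0 ^ 5 = (N : ℝ) ^ (lam * 5) := by
          rw [hy0, Real.rpow_mul hN0.le]
          exact (Real.rpow_natCast _ 5).symm
        have e2 : d0 ^ M1 = (N : ℝ) ^ (κ * lam * (M1 : ℝ)) := by
          rw [hd0, Real.rpow_mul hN0.le (κ * lam) (M1 : ℝ), Real.rpow_natCast]
        rw [e1, e2]
        apply Real.rpow_le_rpow_of_exponent_le hNR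
        nlinarith
      calc ((2 ^ E * (X : ℝ)) ^ 4) ≤ (2 ^ E * (3 * y0)) ^ 4 := by gcongr
        _ = (3 * 2 ^ E) ^ 4 * y0 ^ 4 := by ring
        _ ≤ y0 * y0 ^ 4 := mul_le_mul_of_nonneg_right hNa' (by positivity)
        _ = y0 ^ 5 := by ring
        _ ≤ d0 ^ M1 := h2
        _ ≤ (D : ℝ) ^ M1 := pow_le_pow_left₀ (by linarith) hDl _
    exact_mod_cast h1
  have hRset : ∀ a ∈ T, ∀ i, a i ∈ Rset S X N := by
    intro a ha i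
    obtain ⟨h1, h2, h3⟩ := (hT a ha).1 i
    rw [mem_Rset]
    refine ⟨h1, h2, ?_⟩
    have h4 : (radS S (a i) : ℝ) ≤ (X : ℝ) := by
      rw [← hy0] at h3
      linarith
    exact_mod_cast h4
  -- splitting
  obtain ⟨T1, hT1⟩ : ∃ T1, T1 = T.filter (fun a => ∀ i, radM S M W (a i) ≤ D) := ⟨_, rfl⟩
  obtain ⟨T2, hT2⟩ : ∃ T2, T2 = T.filter (fun a => ¬ ∀ i, radM S M W (a i) ≤ D) := ⟨_, rfl⟩
  have hcard : T.card = T1.card + T2.card := by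
    rw [hT1, hT2]
    exact (Finset.card_filter_add_card_filter_not (s := T) _).symm
  have h1 : (T1.card : ℝ) ≤
      C1 * (D : ℝ) ^ 4 * ((X : ℝ) ^ ((n : ℝ) + ε / 4) * (N : ℝ) ^ (ε / 4 * lam)) := by
    apply hc1 N X W D hN hX2 hWX hD1 hXW hNW T1
    intro a ha
    rw [hT1, Finset.mem_filter] at ha
    obtain ⟨haT, har⟩ := ha
    obtain ⟨hA, hsum, ⟨j, hj⟩, hg, hpr⟩ := hT a haT
    refine ⟨hRset a haT, hsum, har, ?_⟩
    have hL1 : (1 : ℤ) ≤ (X : ℤ) ^ m0 := one_le_pow₀ (by exact_mod_cast (by omega : 1 ≤ X))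
    obtain ⟨l, hjl, -, hns⟩ := pick a (fun i => (hA i).1) (G : ℤ) ((X : ℤ) ^ m0) hg hL1 j (by
      -- `G (2 L)^(n+1) < |a j|`
      have hX3 : (2 * (X : ℝ) ^ m0) ^ (n + 1) ≤ (2 * 3 ^ m0) ^ (n + 1) * (N : ℝ) ^ ((1 : ℝ) / 2) := by
        have e1 : (X : ℝ) ^ m0 ≤ 3 ^ m0 * y0 ^ m0 := by
          rw [← mul_pow]
          exact pow_le_pow_left₀ (Nat.cast_nonneg _) hXu _
        have e2 : (y0 ^ m0) ^ (n + 1) ≤ (N : ℝ) ^ ((1 : ℝ) / 2) := by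
          rw [← pow_mul, hy0, ← Real.rpow_natCast, ← Real.rpow_mul hN0.le]
          apply Real.rpow_le_rpow_of_exponent_le hNR
          push_cast
          linarith
        calc (2 * (X : ℝ) ^ m0) ^ (n + 1) ≤ (2 * (3 ^ m0 * y0 ^ m0)) ^ (n + 1) := by gcongr
          _ = (2 * 3 ^ m0) ^ (n + 1) * (y0 ^ m0) ^ (n + 1) := by
              rw [← mul_assoc, mul_pow]
          _ ≤ _ := mul_le_mul_of_nonneg_left e2 (by positivity)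
      have hs : (N : ℝ) ^ ((1 : ℝ) / 2) * (N : ℝ) ^ ((1 : ℝ) / 2) = N := by
        rw [← Real.rpow_add hN0]
        norm_num
      have hsp : (0 : ℝ) < (N : ℝ) ^ ((1 : ℝ) / 2) := Real.rpow_pos_of_pos hN0 _
      have hlt : ((G : ℝ) * ((G : ℝ) * (2 * (X : ℝ) ^ m0) ^ (n + 1))) < N := by
        calc ((G : ℝ) * ((G : ℝ) * (2 * (X : ℝ) ^ m0) ^ (n + 1)))
            = (G : ℝ) ^ 2 * (2 * (X : ℝ) ^ m0) ^ (n + 1) := by ring
          _ ≤ (G : ℝ) ^ 2 * ((2 * 3 ^ m0) ^ (n + 1) * (N : ℝ) ^ ((1 : ℝ) / 2)) :=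
              mul_le_mul_of_nonneg_left hX3 (by positivity)
          _ = ((G : ℝ) ^ 2 * (2 * 3 ^ m0) ^ (n + 1)) * (N : ℝ) ^ ((1 : ℝ) / 2) := by ring
          _ < (N : ℝ) ^ ((1 : ℝ) / 2) * (N : ℝ) ^ ((1 : ℝ) / 2) := by
              apply mul_lt_mul_of_pos_right _ hsp
              linarith
          _ = N := hs
      have hlt' : (G : ℤ) * ((G : ℤ) * (2 * (X : ℤ) ^ m0) ^ (n + 1)) < G * |a j| := by
        refine lt_of_lt_of_le ?_ hj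
        exact_mod_cast hlt
      exact lt_of_mul_lt_mul_left hlt' (Int.natCast_nonneg G))
    exact ⟨j, l, hjl, hns⟩
  have h2 : (T2.card : ℝ) ≤ C2 * ((D * W : ℕ) : ℝ) *
      ((X : ℝ) ^ n * (N : ℝ) ^ (2 / ((E : ℝ) + 1) + ε / 4 * lam)) := by
    apply hc2 X N (by omega) hN (D * W) T2
    intro a ha
    rw [hT2, Finset.mem_filter] at ha
    obtain ⟨haT, hrad⟩ := ha
    obtain ⟨hA, hsum, -, -, hpr⟩ := hT a haT
    refine ⟨hRset a haT, hsum, ?_⟩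
    push Not at hrad
    obtain ⟨i, hi⟩ := hrad
    obtain ⟨Q, hQ⟩ : ∃ Q : Finset ℕ, Q = (a i).natAbs.primeFactors.filter
      (fun p => p ∉ S ∧ p ≤ W ∧ p ^ M ∣ (a i).natAbs) := ⟨_, rfl⟩
    have hQm : ∀ p ∈ Q, p.Prime ∧ p ∣ (a i).natAbs ∧ p ∉ S ∧ p ≤ W ∧ p ^ M ∣ (a i).natAbs := by
      intro p hp
      rw [hQ, Finset.mem_filter, Nat.mem_primeFactors] at hp
      exact ⟨hp.1.1, hp.1.2.1, hp.2.1, hp.2.2.1, hp.2.2.2⟩
    have hradQ : radM S M W (a i) = ∏ p ∈ Q, p := by rw [hQ]; rfl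
    rcases greedy Q W D (fun p hp => ⟨(hQm p hp).1.one_lt.le, (hQm p hp).2.2.2.1⟩) hD1 hW1 with
      hlt | ⟨Q', hQ'Q, hQl, hQu⟩
    · exact absurd hlt (by rw [← hradQ]; omega)
    obtain ⟨j, l, hij, hil, hjl, Q2, hQ2, hprod, hcop⟩ := pair_sel hn a i Q' (by
      intro p hp
      obtain ⟨hpp, hpd, hpS, hpW, -⟩ := hQm p (hQ'Q hp)
      exact ⟨hpp, Int.natCast_dvd.mpr hpd, hpr p hpp hpS⟩)
    have hQ2m : ∀ p ∈ Q2, p.Prime ∧ p ∣ (a i).natAbs ∧ p ∉ S ∧ p ≤ W ∧ p ^ M ∣ (a i).natAbs :=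
      fun p hp => hQm p (hQ'Q (hQ2 hp))
    obtain ⟨d, hd⟩ : ∃ d : ℕ, d = ∏ p ∈ Q2, p := ⟨_, rfl⟩
    have hd1 : 1 ≤ d := by rw [hd]; exact Finset.prod_pos fun p hp => (hQ2m p hp).1.pos
    have hDd : D ≤ d ^ P := by
      rw [hP, hd]
      exact le_trans hQl hprod
    have hdu : d ≤ D * W := by
      refine le_trans ?_ hQu
      rw [hd]
      exact Finset.prod_le_prod_of_subset_of_one_le' hQ2
        (fun p hp _ => (hQm p (hQ'Q hp)).1.one_lt.le)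
    refine ⟨i, j, l, hij, hil, hjl, d, hd1, hdu, ?_, ?_, ?_, ?_⟩
    · rw [Int.natCast_dvd, hd, ← Finset.prod_pow]
      apply Finset.prod_dvd_of_isRelPrime
      · intro p hp q hq hpq
        have hp' := (hQ2m p (Finset.mem_coe.mp hp)).1
        have hq' := (hQ2m q (Finset.mem_coe.mp hq)).1
        exact Nat.coprime_iff_isRelPrime.mp
          (Nat.Coprime.pow M M ((Nat.coprime_primes hp' hq').mpr hpq))
      · intro p hp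
        exact (hQ2m p hp).2.2.2.2
    · rw [hd]
      push_cast
      apply IsCoprime.prod_right
      intro p hp
      rw [Int.isCoprime_iff_gcd_eq_one, Int.gcd_comm, Int.gcd_eq_natAbs_gcd_natAbs, Int.natAbs_natCast]
      exact (Nat.Prime.coprime_iff_not_dvd (hQ2m p hp).1).mpr
        (fun h => (hcop p hp).1 (Int.natCast_dvd.mpr h))
    · rw [hd]
      push_cast
      apply IsCoprime.prod_right
      intro p hp
      rw [Int.isCoprime_iff_gcd_eq_one, Int.gcd_comm, Int.gcd_eq_natAbs_gcd_natAbs, Int.natAbs_natCast]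
      exact (Nat.Prime.coprime_iff_not_dvd (hQ2m p hp).1).mpr
        (fun h => (hcop p hp).2 (Int.natCast_dvd.mpr h))
    · rw [hMdef, pow_mul]
      exact le_trans hbig (Nat.pow_le_pow_left hDd _)
  -- sizes
  have h3 : (T1.card : ℝ) ≤ K1 * (N : ℝ) ^ (((n : ℝ) + ε) * lam) := by
    have e1 : (D : ℝ) ^ 4 ≤ 2 ^ 4 * (N : ℝ) ^ (κ * lam * 4) := by
      calc (D : ℝ) ^ 4 ≤ (2 * d0) ^ 4 := pow_le_pow_left₀ (Nat.cast_nonneg _) hDu _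
        _ = 2 ^ 4 * (N : ℝ) ^ (κ * lam * 4) := by
            rw [mul_pow, hd0, Real.rpow_mul hN0.le (κ * lam) 4]
            congr 1
            exact (Real.rpow_natCast _ 4).symm
    have e2 : (X : ℝ) ^ ((n : ℝ) + ε / 4) ≤
        3 ^ ((n : ℝ) + ε / 4) * (N : ℝ) ^ (lam * ((n : ℝ) + ε / 4)) := by
      calc (X : ℝ) ^ ((n : ℝ) + ε / 4) ≤ (3 * y0) ^ ((n : ℝ) + ε / 4) :=
            Real.rpow_le_rpow (Nat.cast_nonneg _) hXu (by positivity)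
        _ = _ := by
            rw [Real.mul_rpow (by norm_num) (by linarith), hy0, ← Real.rpow_mul hN0.le]
    have e3 : (N : ℝ) ^ (κ * lam * 4) * (N : ℝ) ^ (lam * ((n : ℝ) + ε / 4)) *
        (N : ℝ) ^ (ε / 4 * lam) ≤ (N : ℝ) ^ (((n : ℝ) + ε) * lam) := by
      rw [← Real.rpow_add hN0, ← Real.rpow_add hN0]
      apply Real.rpow_le_rpow_of_exponent_le hNR
      nlinarith [mul_le_mul_of_nonneg_right hκε hlam.le]
    calc (T1.card : ℝ) ≤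
          C1 * (D : ℝ) ^ 4 * ((X : ℝ) ^ ((n : ℝ) + ε / 4) * (N : ℝ) ^ (ε / 4 * lam)) := h1
      _ ≤ C1 * (2 ^ 4 * (N : ℝ) ^ (κ * lam * 4)) * ((3 ^ ((n : ℝ) + ε / 4) *
          (N : ℝ) ^ (lam * ((n : ℝ) + ε / 4))) * (N : ℝ) ^ (ε / 4 * lam)) := by gcongr
      _ = K1 * ((N : ℝ) ^ (κ * lam * 4) * (N : ℝ) ^ (lam * ((n : ℝ) + ε / 4)) *
          (N : ℝ) ^ (ε / 4 * lam)) := by rw [hK1]; ring
      _ ≤ _ := mul_le_mul_of_nonneg_left e3 hK10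
  have h4 : (T2.card : ℝ) ≤ K2 * (N : ℝ) ^ (((n : ℝ) + ε) * lam) := by
    have e1 : ((D * W : ℕ) : ℝ) ≤ 4 * ((N : ℝ) ^ (κ * lam) * (N : ℝ) ^ (κ * lam / 2)) := by
      push_cast
      calc (D : ℝ) * W ≤ (2 * d0) * (2 * w0) := by gcongr
        _ = _ := by rw [hd0, hw0]; ring
    have e2 : (X : ℝ) ^ n ≤ 3 ^ n * (N : ℝ) ^ (lam * n) := by
      calc (X : ℝ) ^ n ≤ (3 * y0) ^ n := pow_le_pow_left₀ (Nat.cast_nonneg _) hXu _
        _ = _ := by rw [mul_pow, hy0, Real.rpow_mul hN0.le, Real.rpow_natCast]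
    have e3 : (N : ℝ) ^ (κ * lam) * (N : ℝ) ^ (κ * lam / 2) * (N : ℝ) ^ (lam * n) *
        (N : ℝ) ^ (2 / ((E : ℝ) + 1) + ε / 4 * lam) ≤ (N : ℝ) ^ (((n : ℝ) + ε) * lam) := by
      rw [← Real.rpow_add hN0, ← Real.rpow_add hN0, ← Real.rpow_add hN0]
      apply Real.rpow_le_rpow_of_exponent_le hNR
      nlinarith [mul_le_mul_of_nonneg_right hκε hlam.le, mul_pos hε hlam]
    calc (T2.card : ℝ) ≤ C2 * ((D * W : ℕ) : ℝ) *
          ((X : ℝ) ^ n * (N : ℝ) ^ (2 / ((E : ℝ) + 1) + ε / 4 * lam)) := h2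
      _ ≤ C2 * (4 * ((N : ℝ) ^ (κ * lam) * (N : ℝ) ^ (κ * lam / 2))) *
          ((3 ^ n * (N : ℝ) ^ (lam * n)) * (N : ℝ) ^ (2 / ((E : ℝ) + 1) + ε / 4 * lam)) := by
          gcongr
      _ = K2 * ((N : ℝ) ^ (κ * lam) * (N : ℝ) ^ (κ * lam / 2) * (N : ℝ) ^ (lam * n) *
          (N : ℝ) ^ (2 / ((E : ℝ) + 1) + ε / 4 * lam)) := by rw [hK2]; ring
      _ ≤ _ := mul_le_mul_of_nonneg_left e3 hK20
  have h5 : (0 : ℝ) ≤ (2 * (N1 : ℝ) + 1) ^ (n + 2) := by positivity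
  rw [hcard]
  push_cast
  nlinarith [mul_nonneg h5 (le_trans zero_le_one hpow1)]

end Pool.Agent.Helper24.TU
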