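import Pool.Agent.Helper24.TU.RepE
import Pool.Agent.Helper24.TU.BoxE

/-!
TU-04. THE COLLISION LEMMA for numbers of small radical.

Proof. Copy `class_bound` and `collision` of `Helper91/CPX/Collision.lean` with these changes. For `a` in the set take `w(a)`, `y(a)` from `repE` applied
to `|a|`; `c a = (0 < a, w(a), fun j => Nat.clog 2 (y(a) j))`, `Q = Bool × W × (Fin E → {0, ..., clog 2 N})`, `W` the image of `w`:
its elements are `≤ N` and `(E+1)`-full away from `S`, so their number is at most `(Aset S (E+1) N).card ≤ C1 N^(1/(E+1) + ε/8)` (`aset_count`);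
with `clog_pow_le E _ (ε/8)`: `card Q ≤ 2 C1 C3 N^(1/(E+1) + ε/4)`, the square gives `N^(2/(E+1) + ε/2)`. In one class `Z j = 2^(i j) ≤ 2 y_j` (`two_pow_clog_le`),
`∏ Z j ≤ 2^E ∏ y_j ≤ 2^E radS ≤ 2^E Y`, so `(∏ Z j)^4 ≤ (2^E Y)^4 ≤ q`; `a = ± w ∏ y_j^(j+1)`, `w` and the `y_j` are coprime to `q` since `a` is;
`coll_le_of_map` and `box_collE` give `coll ≤ 2^E Y B^(2 E E)`, `B = ⌊C2 q^(ε/(2 E E))⌋₊` (`tau_rpow`). `coll_split`.
-/

set_option autoImplicit false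

open Pool.Agent.Helper87.Camp Pool.Agent.Helper10 Pool.Agent.Helper91.CPX

namespace Pool.Agent.Helper24.TU

/-- The bound for one class. -/
private theorem class_boundE (m : ℕ) (hm : 1 ≤ m) (Y q : ℕ) [NeZero q]
    (hq : (2 ^ m * Y) ^ 4 ≤ q) (B : ℕ) (hB : ∀ w : ℕ, 1 ≤ w → w ≤ q → tau w ≤ B)
    (T : Finset ℤ) (s0 : ℕ) (sg : ℤ) (hsg : sg = 1 ∨ sg = -1) (i : Fin m → ℕ)
    (y : ℤ → Fin m → ℕ)
    (hT : ∀ a ∈ T, IsCoprime a (q : ℤ) ∧ ∏ j, y a j ≤ Y ∧ a ≠ 0 ∧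
      a = sg * ((s0 * ∏ j, y a j ^ ((j : ℕ) + 1) : ℕ) : ℤ) ∧ (∀ j, 0 < y a j) ∧
      ∀ j, Nat.clog 2 (y a j) = i j) :
    (coll T (fun a => (a : ZMod q)) : ℝ) ≤
      2 ^ m * (Y : ℝ) * (B : ℝ) ^ (2 * m * m) := by
  classical
  rcases T.eq_empty_or_nonempty with hTe | ⟨a0, ha0⟩
  · subst hTe
    have h1 : coll (∅ : Finset ℤ) (fun a => (a : ZMod q)) = 0 := by
      unfold coll
      simp
    rw [h1]
    push_cast
    positivity
  obtain ⟨Z, hZdef⟩ : ∃ Z : Fin m → ℕ, Z = fun j => 2 ^ i j := ⟨_, rfl⟩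
  have hZj : ∀ j, Z j = 2 ^ i j := fun j => by rw [hZdef]
  have hZ1 : ∀ j, 1 ≤ Z j := fun j => by rw [hZj]; exact Nat.one_le_two_pow
  have hnat : ∀ a ∈ T, a.natAbs = s0 * ∏ j, y a j ^ ((j : ℕ) + 1) := by
    intro a ha
    obtain ⟨-, -, -, h, -, -⟩ := hT a ha
    conv_lhs => rw [h]
    rw [Int.natAbs_mul, Int.natAbs_natCast]
    rcases hsg with h1 | h1 <;> rw [h1] <;> simp
  have hs0 : 0 < s0 := by
    rcases Nat.eq_zero_or_pos s0 with h | h
    · have h1 := hnat a0 ha0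
      rw [h, zero_mul] at h1
      exact absurd (Int.natAbs_eq_zero.mp h1) (hT a0 ha0).2.2.1
    · exact h
  have hZP : ∏ j, Z j ≤ 2 ^ m * ∏ j, y a0 j := by
    have h1 : ∏ j, Z j ≤ ∏ j : Fin m, (2 * y a0 j) := by
      apply Finset.prod_le_prod'
      intro j _
      rw [hZj, ← (hT a0 ha0).2.2.2.2.2 j]
      exact two_pow_clog_le _ ((hT a0 ha0).2.2.2.2.1 j)
    rw [Finset.prod_mul_distrib] at h1
    simpa using h1
  have hP : ∏ j, y a0 j ≤ Y := (hT a0 ha0).2.1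
  have hZY : ∏ j, Z j ≤ 2 ^ m * Y := hZP.trans (Nat.mul_le_mul_left _ hP)
  have hZ : (∏ j, Z j) ^ 4 ≤ q := (Nat.pow_le_pow_left hZY 4).trans hq
  have hZR : ((∏ j, Z j : ℕ) : ℝ) ≤ 2 ^ m * (Y : ℝ) := by exact_mod_cast hZY
  have hcopr : ∀ a ∈ T, Nat.Coprime a.natAbs q := by
    intro a ha
    have h1 := Int.isCoprime_iff_gcd_eq_one.mp (hT a ha).1
    rw [Int.gcd, Int.natAbs_natCast] at h1
    exact h1
  have hcopy : ∀ a ∈ T, ∀ j, Nat.Coprime (y a j) q := by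
    intro a ha j
    refine Nat.Coprime.coprime_dvd_left ?_ (hcopr a ha)
    rw [hnat a ha]
    refine Dvd.dvd.mul_left ?_ _
    exact (dvd_pow_self _ (by omega)).trans
      (Finset.dvd_prod_of_mem (fun j => y a j ^ ((j : ℕ) + 1)) (Finset.mem_univ j))
  have hcops : Nat.Coprime s0 q := by
    refine Nat.Coprime.coprime_dvd_left ?_ (hcopr a0 ha0)
    rw [hnat a0 ha0]
    exact dvd_mul_right _ _
  have hcoll : coll T (fun a => (a : ZMod q)) ≤
      coll (Fintype.piFinset (fun j => Yq q (Z j)))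
        (fun y => ∏ j, uq q (y j) ^ ((j : ℕ) + 1)) := by
    apply coll_le_of_map T _ y
    · intro a ha
      rw [Fintype.mem_piFinset]
      intro j
      unfold Yq
      rw [Finset.mem_filter, Finset.mem_Icc]
      refine ⟨⟨(hT a ha).2.2.2.2.1 j, ?_⟩, hcopy a ha j⟩
      rw [hZj, ← (hT a ha).2.2.2.2.2 j]
      exact Nat.le_pow_clog (by norm_num) _
    · intro a ha a' ha' h
      have ha1 : a ∈ T := by exact_mod_cast ha
      have ha2 : a' ∈ T := by exact_mod_cast ha'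
      rw [(hT a ha1).2.2.2.1, (hT a' ha2).2.2.2.1, h]
    · intro a ha a' ha' h
      have h1 : ∀ a ∈ T, (a : ZMod q) = (sg : ZMod q) * ((s0 : ZMod q) *
          ((∏ j, uq q (y a j) ^ ((j : ℕ) + 1) : (ZMod q)ˣ) : ZMod q)) := by
        intro a ha
        have h2 : ((∏ j, uq q (y a j) ^ ((j : ℕ) + 1) : (ZMod q)ˣ) : ZMod q) =
            ∏ j, (y a j : ZMod q) ^ ((j : ℕ) + 1) := by
          rw [Units.coe_prod]
          apply Finset.prod_congr rfl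
          intro j _
          rw [Units.val_pow_eq_pow_val, uq_val q _ (hcopy a ha j)]
        rw [h2]
        conv_lhs => rw [(hT a ha).2.2.2.1]
        push_cast
        ring
      have hsu : IsUnit ((sg : ZMod q) * (s0 : ZMod q)) := by
        apply IsUnit.mul
        · rcases hsg with h1 | h1 <;> rw [h1] <;> simp
        · exact (ZMod.isUnit_iff_coprime s0 q).mpr hcops
      apply Units.ext
      have h2 := h1 a ha
      have h3 := h1 a' ha'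
      rw [h2, h3, ← mul_assoc, ← mul_assoc] at h
      exact hsu.mul_left_cancel h
  calc (coll T (fun a => (a : ZMod q)) : ℝ) ≤ (coll (Fintype.piFinset (fun j => Yq q (Z j)))
        (fun y => ∏ j, uq q (y j) ^ ((j : ℕ) + 1)) : ℝ) := by exact_mod_cast hcoll
    _ ≤ ((∏ j, Z j : ℕ) : ℝ) * (B : ℝ) ^ (2 * m * m) := box_collE q m B hm Z hZ1 hZ hB
    _ ≤ 2 ^ m * (Y : ℝ) * (B : ℝ) ^ (2 * m * m) :=
        mul_le_mul_of_nonneg_right hZR (by positivity)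

theorem collisionR (S : Finset ℕ) (E : ℕ) (hE : 1 ≤ E) (ε : ℝ) (hε : 0 < ε) :
    ∃ C : ℝ, 1 ≤ C ∧ ∀ Y N q : ℕ, 1 ≤ Y → 1 ≤ N → 1 ≤ q → (2 ^ E * Y) ^ 4 ≤ q →
      (coll ((Rset S Y N).filter (fun a => IsCoprime a (q : ℤ))) (fun a => (a : ZMod q)) : ℝ) ≤
        C * (q : ℝ) ^ ε * ((Y : ℝ) * (N : ℝ) ^ (2 / ((E : ℝ) + 1) + ε)) := by
  classical
  have hE0 : (0 : ℝ) < E := by exact_mod_cast hE
  obtain ⟨C1, hC1, hF⟩ := aset_count S (E + 1) (by omega) (ε / 8) (by positivity)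
  obtain ⟨C2, hC2, htau⟩ := tau_rpow (ε / (2 * E * E)) (by positivity)
  obtain ⟨C3, hC3, hlog⟩ := clog_pow_le E hE (ε / 8) (by positivity)
  refine ⟨(2 * (C1 * C3)) ^ 2 * (2 ^ E * C2 ^ (2 * E * E)), ?_, fun Y N q hY hN hq hqm => ?_⟩
  · have h1 : (1 : ℝ) ≤ 2 * (C1 * C3) := by nlinarith
    have h2 : (1 : ℝ) ≤ (2 * (C1 * C3)) ^ 2 := one_le_pow₀ h1
    have h3 : (1 : ℝ) ≤ 2 ^ E := one_le_pow₀ (by norm_num)
    have h4 : (1 : ℝ) ≤ C2 ^ (2 * E * E) := one_le_pow₀ hC2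
    exact one_le_mul_of_one_le_of_one_le h2 (one_le_mul_of_one_le_of_one_le h3 h4)
  have : NeZero q := ⟨by omega⟩
  have hN1 : (1 : ℝ) ≤ N := by exact_mod_cast hN
  have hq1 : (1 : ℝ) ≤ q := by exact_mod_cast hq
  have hN0 : (0 : ℝ) < N := by linarith
  have hq0 : (0 : ℝ) < q := by linarith
  have hrep : ∀ a : ℤ, ∃ (s : ℕ) (y : Fin E → ℕ), a ∈ Rset S Y N →
      (0 < s ∧ NFull S (E + 1) s ∧ (∀ j, 0 < y j) ∧
        a.natAbs = s * ∏ j, y j ^ ((j : ℕ) + 1) ∧ ∏ j, y j ≤ Y) := by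
    intro a
    by_cases ha : a ∈ Rset S Y N
    · have h1 := mem_Rset.mp ha
      obtain ⟨s, y, h2, h3, h4, h5, h6⟩ := repE S E a.natAbs (Int.natAbs_pos.mpr h1.1)
      refine ⟨s, y, fun _ => ⟨h2, h3, h4, h5, h6.trans ?_⟩⟩
      have h7 : radS S ((a.natAbs : ℕ) : ℤ) = radS S a := by
        unfold radS
        rw [Int.natAbs_natCast]
      rw [h7]
      exact h1.2.2
    · exact ⟨0, fun _ => 0, fun h => absurd h ha⟩
  choose s y hsy using hrep
  obtain ⟨A, hA⟩ : ∃ A : Finset ℤ, A = (Rset S Y N).filter (fun a => IsCoprime a (q : ℤ)) :=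
    ⟨_, rfl⟩
  have hAm : ∀ a ∈ A, a ∈ Rset S Y N ∧ IsCoprime a (q : ℤ) := by
    intro a ha
    rw [hA] at ha
    exact Finset.mem_filter.mp ha
  have hyN : ∀ a ∈ A, ∀ j, y a j ≤ N := by
    intro a ha j
    obtain ⟨h1, -, h3, h4, -⟩ := hsy a (hAm a ha).1
    have h5 := (mem_Rset.mp (hAm a ha).1).2.1
    have h6 : y a j ∣ a.natAbs := by
      rw [h4]
      refine Dvd.dvd.mul_left ?_ _
      exact (dvd_pow_self _ (by omega)).trans
        (Finset.dvd_prod_of_mem (fun j => y a j ^ ((j : ℕ) + 1)) (Finset.mem_univ j))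
    exact (Nat.le_of_dvd (Int.natAbs_pos.mpr (mem_Rset.mp (hAm a ha).1).1) h6).trans h5
  have hsN : ∀ a ∈ A, s a ≤ N := by
    intro a ha
    obtain ⟨h1, -, h3, h4, -⟩ := hsy a (hAm a ha).1
    have h5 := (mem_Rset.mp (hAm a ha).1).2.1
    have h6 : s a ∣ a.natAbs := by
      rw [h4]
      exact dvd_mul_right _ _
    exact (Nat.le_of_dvd (Int.natAbs_pos.mpr (mem_Rset.mp (hAm a ha).1).1) h6).trans h5
  -- the classes
  obtain ⟨c, hc⟩ : ∃ c : ℤ → Bool × (ℕ × (Fin E → ℕ)), c = fun a =>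
      (decide (0 < a), (s a, fun j => Nat.clog 2 (y a j))) := ⟨_, rfl⟩
  obtain ⟨F, hFd⟩ : ∃ F : Finset ℕ, F = A.image s := ⟨_, rfl⟩
  obtain ⟨Q, hQ⟩ : ∃ Q : Finset (Bool × (ℕ × (Fin E → ℕ))), Q = Finset.univ ×ˢ (F ×ˢ
      Fintype.piFinset (fun _ : Fin E => Finset.range (Nat.clog 2 N + 1))) := ⟨_, rfl⟩
  obtain ⟨u, hu⟩ : ∃ u : ℝ, u = 1 / ((E : ℝ) + 1) := ⟨_, rfl⟩
  have hFc : (F.card : ℝ) ≤ C1 * (N : ℝ) ^ (u + ε / 8) := by
    have h1 := hF N hN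
    have h2 : F.card ≤ (Aset S (E + 1) N).card := by
      refine Finset.card_le_card_of_injOn (fun v : ℕ => (v : ℤ)) ?_ ?_
      · intro v hv
        have hv' : v ∈ F := by exact_mod_cast hv
        rw [hFd] at hv'
        obtain ⟨a, ha, rfl⟩ := Finset.mem_image.mp hv'
        obtain ⟨h1, h2, h3, h4, -⟩ := hsy a (hAm a ha).1
        show ((s a : ℕ) : ℤ) ∈ ((Aset S (E + 1) N : Finset ℤ) : Set ℤ)
        rw [Finset.mem_coe, mem_Aset, Int.natAbs_natCast]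
        exact ⟨by exact_mod_cast h1.ne', hsN a ha, h2⟩
      · intro v _ v' _ h
        exact Int.ofNat.inj h
    have h3 : (F.card : ℝ) ≤ ((Aset S (E + 1) N).card : ℝ) := by exact_mod_cast h2
    refine h3.trans (h1.trans (le_of_eq ?_))
    rw [hu]
    push_cast
    rfl
  have hQc : (Q.card : ℝ) ≤ 2 * ((C1 * (N : ℝ) ^ (u + ε / 8)) * (C3 * (N : ℝ) ^ (ε / 8))) := by
    have h1 : Q.card = 2 * (F.card * (Nat.clog 2 N + 1) ^ E) := by
      rw [hQ, Finset.card_product, Finset.card_product, Fintype.card_piFinset]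
      simp
    rw [h1]
    push_cast
    have h2 := hlog N hN
    push_cast at h2
    have h3 : (F.card : ℝ) * ((Nat.clog 2 N : ℝ) + 1) ^ E ≤
        (C1 * (N : ℝ) ^ (u + ε / 8)) * (C3 * (N : ℝ) ^ (ε / 8)) :=
      mul_le_mul hFc h2 (by positivity) (by positivity)
    linarith
  have hcQ : ∀ a ∈ A, c a ∈ Q := by
    intro a ha
    rw [hQ, hc, Finset.mem_product, Finset.mem_product, Fintype.mem_piFinset]
    refine ⟨Finset.mem_univ _, ?_, ?_⟩
    · rw [hFd]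
      exact Finset.mem_image_of_mem _ ha
    · intro j
      rw [Finset.mem_range]
      have h1 := Nat.clog_mono_right 2 (hyN a ha j)
      exact Nat.lt_succ_of_le h1
  obtain ⟨B, hBd⟩ : ∃ B : ℕ, B = ⌊C2 * (q : ℝ) ^ (ε / (2 * E * E))⌋₊ := ⟨_, rfl⟩
  have hB : ∀ w : ℕ, 1 ≤ w → w ≤ q → tau w ≤ B := by
    intro w hw hwq
    rw [hBd]
    apply Nat.le_floor
    refine (htau w (by omega)).trans ?_
    apply mul_le_mul_of_nonneg_left _ (by linarith)
    apply Real.rpow_le_rpow (by positivity) _ (by positivity)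
    exact_mod_cast hwq
  have hBR : (B : ℝ) ^ (2 * E * E) ≤ C2 ^ (2 * E * E) * (q : ℝ) ^ ε := by
    have h1 : (B : ℝ) ≤ C2 * (q : ℝ) ^ (ε / (2 * E * E)) := by
      rw [hBd]
      exact Nat.floor_le (by positivity)
    calc (B : ℝ) ^ (2 * E * E) ≤ (C2 * (q : ℝ) ^ (ε / (2 * E * E))) ^ (2 * E * E) :=
          pow_le_pow_left₀ (by positivity) h1 _
      _ = C2 ^ (2 * E * E) * (q : ℝ) ^ ε := by
          rw [mul_pow, ← Real.rpow_natCast ((q : ℝ) ^ (ε / (2 * E * E))) (2 * E * E),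
            ← Real.rpow_mul hq0.le]
          congr 2
          push_cast
          field_simp
  obtain ⟨K, hK⟩ : ∃ K : ℝ, K = 2 ^ E * (Y : ℝ) * (B : ℝ) ^ (2 * E * E) :=
    ⟨_, rfl⟩
  have hK0 : 0 ≤ K := by rw [hK]; positivity
  have hsplit := coll_split A (fun a => (a : ZMod q)) c Q hcQ K hK0 (by
    intro γ _
    rw [hK]
    apply class_boundE E hE Y q hqm B hB (A.filter (fun a => c a = γ)) γ.2.1
      (if γ.1 = true then 1 else -1) (by split_ifs <;> simp) γ.2.2 y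
    intro a ha
    obtain ⟨haA, hac⟩ := Finset.mem_filter.mp ha
    obtain ⟨h1, h2, h3, h4, h4'⟩ := hsy a (hAm a haA).1
    have h5 := mem_Rset.mp (hAm a haA).1
    rw [hc] at hac
    subst hac
    refine ⟨(hAm a haA).2, h4', h5.1, ?_, h3, fun j => rfl⟩
    simp only
    rw [← h4]
    by_cases hpos : 0 < a
    · rw [if_pos (decide_eq_true hpos)]
      omega
    · rw [if_neg (by simpa using hpos)]
      omega)
  rw [← hA]
  refine hsplit.trans ?_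
  have hNp : ((N : ℝ) ^ (u + ε / 8) * (N : ℝ) ^ (ε / 8)) ^ 2 = (N : ℝ) ^ (2 * u + ε / 2) := by
    rw [← Real.rpow_add hN0, ← Real.rpow_natCast, ← Real.rpow_mul hN0.le]
    congr 1
    push_cast
    ring
  have hNp2 : (N : ℝ) ^ (2 * u + ε / 2) ≤ (N : ℝ) ^ (2 / ((E : ℝ) + 1) + ε) := by
    refine Real.rpow_le_rpow_of_exponent_le hN1 ?_
    have : 2 * u = 2 / ((E : ℝ) + 1) := by rw [hu]; ring
    rw [this]
    linarith
  have hKle : K ≤ 2 ^ E * (Y : ℝ) * (C2 ^ (2 * E * E) * (q : ℝ) ^ ε) := by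
    rw [hK]
    exact mul_le_mul_of_nonneg_left hBR (by positivity)
  calc (Q.card : ℝ) ^ 2 * K
      ≤ (2 * ((C1 * (N : ℝ) ^ (u + ε / 8)) * (C3 * (N : ℝ) ^ (ε / 8)))) ^ 2 *
        (2 ^ E * (Y : ℝ) * (C2 ^ (2 * E * E) * (q : ℝ) ^ ε)) := by
        apply mul_le_mul _ hKle hK0 (by positivity)
        exact pow_le_pow_left₀ (by positivity) hQc 2
    _ = (2 * (C1 * C3)) ^ 2 * (2 ^ E * C2 ^ (2 * E * E)) * (q : ℝ) ^ ε *
        ((Y : ℝ) * ((N : ℝ) ^ (u + ε / 8) * (N : ℝ) ^ (ε / 8)) ^ 2) := by ring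
    _ ≤ _ := by
        rw [hNp]
        exact mul_le_mul_of_nonneg_left (mul_le_mul_of_nonneg_left hNp2 (Nat.cast_nonneg _))
          (by positivity)

end Pool.Agent.Helper24.TU
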