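import Pool.Agent.Helper24.TU.Defs

/-!
TU-06. Decomposition of a number of small radical: the `S`-part, the small primes with exponents `≥ M`, and boundedly many variables.

Proof. As `decomp2` in `Helper91/CPX/Decomp2.lean` (copy its private `enum_aux`). Let `f = n.factorization`, `P = n.primeFactors`. Split `P`:
`p ∈ S` gives `s`; `p ∉ S`, `M ≤ f p`, `p ≤ W` gives `v`; `Λ = {p ∉ S, M ≤ f p, W < p}`; for `i < M - 1` let `u i = ∏ {p ∉ S : f p = i + 1} p`
(exponent `i + 1 < M`). The variables: `x (castAdd i) = u i` for `i + 1 < M` and `1` for `i + 1 = M`, with exponent `i + 1 ≤ M ≤ H m`; the elements of `Λ` with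
exponents `f p` (padded by `x = 1`, `e = 1`) for the last `H`. Use `Fin.prod_univ_add`, `Fin.append`.
Bounds: the `u i` and the primes `p ∈ Λ` divide a product of distinct primes of `n` outside `S`, so they are `≤ radS S n ≤ X`.
`(W + 1)^(card Λ) ≤ ∏_{p ∈ Λ} p ≤ radS S n ≤ X ≤ W ^ H`, so `card Λ ≤ H`. For `p ∈ Λ`: `(W + 1)^(f p) ≤ p ^ (f p) ≤ n ≤ N ≤ W ^ (H m)`, so `f p ≤ H m`.
`s * v ∣ n`. (`1 ≤ H` follows from ... not needed: `1 ≤ M ≤ H * m`.)
-/

set_option autoImplicit false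

open Pool.Agent.Helper87.Camp Pool.Agent.Helper10 Pool.Agent.Helper91.CPX

namespace Pool.Agent.Helper24.TU

private lemma enum_aux (f : ℕ → ℕ) : ∀ (H : ℕ) (Λ : Finset ℕ), Λ.card ≤ H →
    ∃ x e : Fin H → ℕ, (∀ i, (x i = 1 ∧ e i = 1) ∨ ∃ p ∈ Λ, x i = p ∧ e i = f p) ∧
      ∏ i, x i ^ e i = ∏ p ∈ Λ, p ^ f p := by
  intro H
  induction H with
  | zero =>
    intro Λ hΛ
    have h0 : Λ = ∅ := Finset.card_eq_zero.1 (Nat.le_zero.1 hΛ)
    subst h0
    exact ⟨fun _ => 1, fun _ => 1, fun i => Fin.elim0 i, by simp⟩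
  | succ H ih =>
    intro Λ hΛ
    rcases Λ.eq_empty_or_nonempty with h0 | ⟨p, hp⟩
    · subst h0
      exact ⟨fun _ => 1, fun _ => 1, fun i => Or.inl ⟨rfl, rfl⟩, by simp⟩
    · obtain ⟨x, e, h1, h2⟩ := ih (Λ.erase p) (by
        rw [Finset.card_erase_of_mem hp]; omega)
      refine ⟨Fin.cons p x, Fin.cons (f p) e, ?_, ?_⟩
      · intro i
        refine Fin.cases ?_ (fun j => ?_) i
        · right
          exact ⟨p, hp, by simp, by simp⟩
        · rcases h1 j with h3 | ⟨q, hq, h4, h5⟩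
          · left
            simpa using h3
          · right
            exact ⟨q, Finset.mem_of_mem_erase hq, by simpa using h4, by simpa using h5⟩
      · rw [Fin.prod_univ_succ]
        simp only [Fin.cons_zero, Fin.cons_succ]
        rw [h2, Finset.mul_prod_erase Λ (fun p => p ^ f p) hp]

private lemma small_aux (f : ℕ → ℕ) (M : ℕ) (R : Finset ℕ) (h : ∀ p ∈ R, 1 ≤ f p ∧ f p < M) :
    ∏ i : Fin M, (∏ p ∈ R.filter (fun p => f p = (i : ℕ) + 1), p) ^ ((i : ℕ) + 1) =
      ∏ p ∈ R, p ^ f p := by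
  have h1 : ∏ i : Fin M, (∏ p ∈ R.filter (fun p => f p = (i : ℕ) + 1), p) ^ ((i : ℕ) + 1) =
      ∏ j ∈ Finset.range M, (∏ p ∈ R.filter (fun p => f p = j + 1), p) ^ (j + 1) :=
    (Finset.prod_range (fun j => (∏ p ∈ R.filter (fun p => f p = j + 1), p) ^ (j + 1))).symm
  rw [h1, ← Finset.prod_fiberwise_of_maps_to (s := R) (t := Finset.range M) (g := fun p => f p - 1)
    (fun p hp => Finset.mem_range.2 (by have := h p hp; omega)) (fun p => p ^ f p)]
  refine Finset.prod_congr rfl fun j _ => ?_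
  have h2 : R.filter (fun p => f p - 1 = j) = R.filter (fun p => f p = j + 1) := by
    refine Finset.filter_congr fun p hp => ?_
    have := h p hp
    omega
  rw [h2, ← Finset.prod_pow]
  refine Finset.prod_congr rfl fun p hp => ?_
  rw [(Finset.mem_filter.1 hp).2]

theorem decR (S : Finset ℕ) (M H m X W N : ℕ) (hM : 1 ≤ M) (hMm : M ≤ H * m) (hX1 : 1 ≤ X)
    (hX : X ≤ W ^ H) (hW : N ≤ W ^ (H * m)) (n : ℕ) (hn : 0 < n) (hnN : n ≤ N)
    (h : radS S (n : ℤ) ≤ X) :
    ∃ (s v : ℕ) (x e : Fin (M + H) → ℕ), 0 < s ∧ 0 < v ∧ s * v ≤ N ∧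
      (∀ p : ℕ, p.Prime → p ∣ s → p ∈ S) ∧
      v.primeFactors = n.primeFactors.filter (fun p => p ∉ S ∧ p ≤ W ∧ p ^ M ∣ n) ∧
      (∀ i, 1 ≤ x i ∧ x i ≤ X) ∧ (∀ i, 1 ≤ e i ∧ e i ≤ H * m) ∧
      n = s * v * ∏ i, x i ^ e i := by
  classical
  set f := n.factorization with hf
  set P := n.primeFactors with hP
  set PS := P.filter (fun p => p ∈ S) with hPS
  set R := P.filter (fun p => p ∉ S ∧ f p < M) with hR
  set P1 := P.filter (fun p => p ∉ S ∧ p ≤ W ∧ p ^ M ∣ n) with hP1
  set Λ := P.filter (fun p => p ∉ S ∧ M ≤ f p ∧ ¬ p ≤ W) with hΛ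
  have hprime : ∀ p ∈ P, p.Prime := fun p hp => Nat.prime_of_mem_primeFactors hp
  have hn0 : n ≠ 0 := hn.ne'
  have hdv : ∀ p ∈ P, (p ^ M ∣ n ↔ M ≤ f p) := fun p hp =>
    (hprime p hp).pow_dvd_iff_le_factorization hn0
  have hfpos : ∀ p ∈ P, 1 ≤ f p := by
    intro p hp
    have h3 : p ∈ f.support := by
      rw [hf, Nat.support_factorization]
      exact hp
    exact Nat.one_le_iff_ne_zero.2 (Finsupp.mem_support_iff.1 h3)
  have hP1' : P1 = P.filter (fun p => p ∉ S ∧ M ≤ f p ∧ p ≤ W) := by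
    rw [hP1]
    refine Finset.filter_congr fun p hp => ?_
    rw [hdv p hp]
    tauto
  have hprod : n = (∏ p ∈ PS, p ^ f p) * (∏ p ∈ P1, p ^ f p) *
      ((∏ p ∈ R, p ^ f p) * ∏ p ∈ Λ, p ^ f p) := by
    have h1 : n = ∏ p ∈ P, p ^ f p := by
      conv_lhs => rw [← Nat.prod_factorization_pow_eq_self hn0]
      rfl
    conv_lhs => rw [h1]
    rw [← Finset.prod_filter_mul_prod_filter_not P (fun p => p ∈ S) (fun p => p ^ f p), mul_assoc]
    congr 1
    rw [← Finset.prod_filter_mul_prod_filter_not (P.filter (fun p => p ∉ S)) (fun p => f p < M)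
      (fun p => p ^ f p), Finset.filter_filter, Finset.filter_filter]
    rw [← Finset.prod_filter_mul_prod_filter_not (P.filter (fun p => p ∉ S ∧ ¬ f p < M))
      (fun p => p ≤ W) (fun p => p ^ f p), Finset.filter_filter, Finset.filter_filter]
    have h2 : P.filter (fun p => (p ∉ S ∧ ¬ f p < M) ∧ p ≤ W) = P1 := by
      rw [hP1']
      refine Finset.filter_congr fun p _ => ?_
      rw [not_lt]
      tauto
    have h3 : P.filter (fun p => (p ∉ S ∧ ¬ f p < M) ∧ ¬ p ≤ W) = Λ := by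
      rw [hΛ]
      refine Finset.filter_congr fun p _ => ?_
      rw [not_lt]
      tauto
    rw [h2, h3, ← hR]
    ring
  have hpos : ∀ T : Finset ℕ, T ⊆ P → 0 < ∏ p ∈ T, p ^ f p := by
    intro T hT
    exact Finset.prod_pos (fun p hp => pow_pos (hprime p (hT hp)).pos _)
  have hS_pos := hpos PS (Finset.filter_subset _ _)
  have h1_pos := hpos P1 (Finset.filter_subset _ _)
  have hWlt : ∀ t, H * m ≤ t → N < (W + 1) ^ t := by
    intro t ht
    have h3 : H * m ≠ 0 := by omega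
    calc N ≤ W ^ (H * m) := hW
      _ < (W + 1) ^ (H * m) := Nat.pow_lt_pow_left (Nat.lt_succ_self W) h3
      _ ≤ (W + 1) ^ t := Nat.pow_le_pow_right (Nat.succ_pos W) ht
  have hrad : ∀ T : Finset ℕ, T ⊆ P.filter (fun p => p ∉ S) → ∏ p ∈ T, p ≤ X := by
    intro T hT
    refine le_trans ?_ h
    unfold radS
    rw [Int.natAbs_natCast]
    exact Finset.prod_le_prod_of_subset_of_one_le' hT
      (fun p hp _ => (hprime p (Finset.mem_filter.1 hp).1).one_lt.le)
  have hΛsub : Λ ⊆ P.filter (fun p => p ∉ S) := by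
    intro p hp
    rw [hΛ, Finset.mem_filter] at hp
    exact Finset.mem_filter.2 ⟨hp.1, hp.2.1⟩
  have hcard : Λ.card ≤ H := by
    by_contra hc
    push Not at hc
    have h3 : (W + 1) ^ Λ.card ≤ ∏ p ∈ Λ, p := by
      have h4 : ∏ _p ∈ Λ, (W + 1) ≤ ∏ p ∈ Λ, p := by
        refine Finset.prod_le_prod' (fun p hp => ?_)
        rw [hΛ, Finset.mem_filter] at hp
        omega
      rwa [Finset.prod_const] at h4
    have h5 := hrad Λ hΛsub
    have h6 : W ^ H < (W + 1) ^ Λ.card := by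
      calc W ^ H ≤ (W + 1) ^ H := Nat.pow_le_pow_left (Nat.le_succ W) H
        _ < (W + 1) ^ Λ.card := by
          have hW1 : 1 ≤ W := by
            rcases Nat.eq_zero_or_pos W with h0 | h0
            · exfalso
              have h7 : N ≤ 0 := by
                rw [h0, zero_pow (by omega)] at hW
                exact hW
              omega
            · exact h0
          exact Nat.pow_lt_pow_right (by omega) hc
    omega
  obtain ⟨x, e, hxe, hxeprod⟩ := enum_aux f H Λ hcard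
  have hHm : 1 ≤ H * m := by omega
  refine ⟨∏ p ∈ PS, p ^ f p, ∏ p ∈ P1, p ^ f p,
    Fin.append (fun i : Fin M => ∏ p ∈ R.filter (fun p => f p = (i : ℕ) + 1), p) x,
    Fin.append (fun i : Fin M => (i : ℕ) + 1) e, hS_pos, h1_pos, ?_, ?_, ?_, ?_, ?_, ?_⟩
  · refine le_trans (Nat.le_of_dvd hn ?_) hnN
    conv_rhs => rw [hprod]
    exact dvd_mul_right _ _
  · intro p hp hd
    obtain ⟨q, hq, hdq⟩ := (hp.prime.dvd_finsetProd_iff _).1 hd
    rw [hPS, Finset.mem_filter] at hq
    have h3 := hp.dvd_of_dvd_pow hdq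
    rw [(Nat.prime_dvd_prime_iff_eq hp (hprime q hq.1)).1 h3]
    exact hq.2
  · ext p
    rw [Nat.mem_primeFactors]
    constructor
    · rintro ⟨hp, hd, -⟩
      obtain ⟨q, hq, hdq⟩ := (hp.prime.dvd_finsetProd_iff _).1 hd
      have h3 := hp.dvd_of_dvd_pow hdq
      rw [(Nat.prime_dvd_prime_iff_eq hp (hprime q (Finset.mem_filter.1 hq).1)).1 h3]
      exact hq
    · intro hp
      have hpP : p ∈ P := (Finset.mem_filter.1 hp).1
      refine ⟨hprime p hpP, ?_, h1_pos.ne'⟩
      exact dvd_trans (dvd_pow_self p (by have := hfpos p hpP; omega))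
        (Finset.dvd_prod_of_mem _ hp)
  · intro i
    refine Fin.addCases (fun i => ?_) (fun i => ?_) i
    · rw [Fin.append_left]
      constructor
      · have h3 : 0 < ∏ p ∈ R.filter (fun p => f p = (i : ℕ) + 1), p := by
          refine Finset.prod_pos (fun p hp => ?_)
          rw [Finset.mem_filter, hR, Finset.mem_filter] at hp
          exact (hprime p hp.1.1).pos
        exact h3
      · refine hrad _ fun p hp => ?_
        rw [Finset.mem_filter, hR, Finset.mem_filter] at hp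
        exact Finset.mem_filter.2 ⟨hp.1.1, hp.1.2.1⟩
    · rw [Fin.append_right]
      rcases hxe i with ⟨h3, -⟩ | ⟨p, hp, h3, -⟩
      · rw [h3]
        exact ⟨le_rfl, hX1⟩
      · rw [h3]
        have hpΛ := hΛsub hp
        refine ⟨(hprime p (Finset.mem_filter.1 hpΛ).1).one_lt.le, ?_⟩
        have h4 := hrad {p} (Finset.singleton_subset_iff.2 hpΛ)
        rwa [Finset.prod_singleton] at h4
  · intro i
    refine Fin.addCases (fun i => ?_) (fun i => ?_) i
    · rw [Fin.append_left]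
      have := i.2
      constructor <;> omega
    · rw [Fin.append_right]
      rcases hxe i with ⟨-, h3⟩ | ⟨p, hp, -, h3⟩
      · rw [h3]
        exact ⟨le_rfl, hHm⟩
      · rw [h3]
        rw [hΛ, Finset.mem_filter] at hp
        refine ⟨hfpos p hp.1, ?_⟩
        by_contra hc
        push Not at hc
        have h5 := hWlt (f p) hc.le
        have h6 : W + 1 ≤ p := by omega
        have h7 : (W + 1) ^ f p ≤ p ^ f p := Nat.pow_le_pow_left h6 _
        have h8 : p ^ f p ≤ n := Nat.le_of_dvd hn (Nat.ordProj_dvd n p)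
        omega
  · rw [Fin.prod_univ_add]
    simp only [Fin.append_left, Fin.append_right]
    rw [hxeprod, small_aux f M R (fun p hp => by
      rw [hR, Finset.mem_filter] at hp
      exact ⟨hfpos p hp.1, hp.2.2⟩)]
    exact hprod

end Pool.Agent.Helper24.TU
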