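import Pool.Agent.Helper91.CPX.Collision
import Pool.Agent.Helper91.CPX.AsetCount

/-!
Project TU (MP_464c42_nt), definitions: points of small radical.

* `radS S a`: the product of the primes outside `S` which divide `a`;
* `Rset S Y N`: the nonzero integers `a`, `|a| ≤ N`, with `radS S a ≤ Y`;
* `radM S M W a`: the product of the primes `p ≤ W` outside `S` with `p ^ M ∣ a` (and `p ∣ a`);
* `ht x`: the maximum of the `|x j|`.
-/

set_option autoImplicit false

open Pool.Agent.Helper87.Camp Pool.Agent.Helper10 Pool.Agent.Helper91.CPX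

namespace Pool.Agent.Helper24.TU

/-- The product of the primes outside `S` that divide `a`. -/
def radS (S : Finset ℕ) (a : ℤ) : ℕ :=
  ∏ p ∈ a.natAbs.primeFactors.filter (fun p => p ∉ S), p

/-- The maximum of the absolute values of the coordinates. -/
noncomputable def ht {n : ℕ} (x : Fin (n + 1) → ℤ) : ℕ := Finset.univ.sup fun j => (x j).natAbs

/-- The nonzero integers `a` with `|a| ≤ N` and `radS S a ≤ Y`. -/
noncomputable def Rset (S : Finset ℕ) (Y N : ℕ) : Finset ℤ :=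
  (Finset.Icc (-(N : ℤ)) N).filter (fun a => a ≠ 0 ∧ radS S a ≤ Y)

theorem mem_Rset {S : Finset ℕ} {Y N : ℕ} {a : ℤ} :
    a ∈ Rset S Y N ↔ a ≠ 0 ∧ a.natAbs ≤ N ∧ radS S a ≤ Y := by
  unfold Rset
  rw [Finset.mem_filter, Finset.mem_Icc]
  constructor
  · rintro ⟨⟨h1, h2⟩, h3, h4⟩
    exact ⟨h3, by omega, h4⟩
  · rintro ⟨h1, h2, h3⟩
    exact ⟨⟨by omega, by omega⟩, h1, h3⟩

/-- The product of the primes `p ≤ W` outside `S` whose `M`-th power divides `a`. -/
def radM (S : Finset ℕ) (M W : ℕ) (a : ℤ) : ℕ :=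
  ∏ p ∈ a.natAbs.primeFactors.filter (fun p => p ∉ S ∧ p ≤ W ∧ p ^ M ∣ a.natAbs), p

theorem radS_pos (S : Finset ℕ) (a : ℤ) : 0 < radS S a :=
  Finset.prod_pos fun _ hp => (Nat.prime_of_mem_primeFactors (Finset.mem_filter.1 hp).1).pos

theorem radM_pos (S : Finset ℕ) (M W : ℕ) (a : ℤ) : 0 < radM S M W a :=
  Finset.prod_pos fun _ hp => (Nat.prime_of_mem_primeFactors (Finset.mem_filter.1 hp).1).pos

theorem le_ht {n : ℕ} (x : Fin (n + 1) → ℤ) (j : Fin (n + 1)) : (x j).natAbs ≤ ht x :=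
  Finset.le_sup (f := fun j => (x j).natAbs) (Finset.mem_univ j)

theorem ht_le {n : ℕ} (x : Fin (n + 1) → ℤ) (N : ℕ) (h : ∀ j, (x j).natAbs ≤ N) : ht x ≤ N :=
  Finset.sup_le fun j _ => h j

end Pool.Agent.Helper24.TU
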