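import Pool.Agent.Helper24.TU.Defs
import Pool.Agent.Helper91.CPX.TwoIndices

/-!
TU-11. Forms in general position: the height of `x` is bounded by the values, and the gcd of the values is bounded.

Proof. Let `M = L.submatrix (Fin.succAbove 0) id`, `det M = minor L 0 ≠ 0`, `adj M * (M x) = det M • x` (as in `TwoIndices.lean`): `det M * x j = ∑ k, adj M j k * form L (succAbove 0 k) x`.
(a) `|x j| ≤ |det M * x j| ≤ (∑ |adj M j k|) max_k |form|`. So `C1 = 1 + ∑_{j,k} |adj M j k|` works: some `i` has `ht x ≤ C1 * |form L i x|` (take the `i` with the maximal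
`|form L i x|`). (b) If `g ∣ rel L i * form L i x` for all `i` then with `R = ∏ i, rel L i`: `g ∣ R * form L i x` for all `i`, so `g ∣ R * det M * x j` for all `j`. As `x` is
primitive (`∀ d, (∀ j, d ∣ x j) → IsUnit d`), the gcd of the `x j` is a unit and `g ∣ R * det M`: `|g| ≤ |R * det M|`. `C2 = |R * det M|`.
Take `G = max C1 C2 ≥ 1` etc.
-/

set_option autoImplicit false

open Pool.Agent.Helper87.Camp Pool.Agent.Helper10 Pool.Agent.Helper91.CPX

namespace Pool.Agent.Helper24.TU

/-- Cramer's rule -/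
private lemma geo_cramer {n : ℕ} (L : Matrix (Fin (n + 2)) (Fin (n + 1)) ℤ) (x : Fin (n + 1) → ℤ)
    (j : Fin (n + 1)) : minor L 0 * x j = ∑ k, (L.submatrix (Fin.succAbove 0) id).adjugate j k *
      form L (Fin.succAbove 0 k) x := by
  have h3 : (L.submatrix (Fin.succAbove 0) id).adjugate.mulVec
      ((L.submatrix (Fin.succAbove 0) id).mulVec x) =
      (L.submatrix (Fin.succAbove 0) id).det • x := by
    rw [Matrix.mulVec_mulVec, Matrix.adjugate_mul, Matrix.smul_mulVec, Matrix.one_mulVec]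
  have h4 := congrFun h3 j
  rw [Pi.smul_apply, smul_eq_mul] at h4
  unfold minor
  rw [← h4]
  rfl

theorem geo {n : ℕ} (L : Matrix (Fin (n + 2)) (Fin (n + 1)) ℤ) (hL : ∀ i, minor L i ≠ 0) :
    ∃ G : ℕ, 1 ≤ G ∧ ∀ x : Fin (n + 1) → ℤ, (∀ d : ℤ, (∀ j, d ∣ x j) → IsUnit d) →
      (∃ i, (ht x : ℤ) ≤ G * |form L i x|) ∧
      ∀ g : ℤ, (∀ i, g ∣ rel L i * form L i x) → |g| ≤ G := by
  obtain ⟨A, hA⟩ : ∃ A : Matrix (Fin (n + 1)) (Fin (n + 1)) ℤ,
      A = (L.submatrix (Fin.succAbove 0) id).adjugate := ⟨_, rfl⟩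
  have hcr : ∀ (x : Fin (n + 1) → ℤ) (j : Fin (n + 1)), minor L 0 * x j =
      ∑ k, A j k * form L (Fin.succAbove 0 k) x := by
    intro x j
    rw [hA]
    exact geo_cramer L x j
  obtain ⟨R, hR⟩ : ∃ R : ℤ, R = ∏ i, rel L i := ⟨_, rfl⟩
  have hrel : ∀ i, rel L i ≠ 0 := by
    intro i
    unfold rel
    exact mul_ne_zero (pow_ne_zero _ (by norm_num)) (hL i)
  have hR0 : R ≠ 0 := by
    rw [hR]
    exact Finset.prod_ne_zero_iff.2 fun i _ => hrel i
  obtain ⟨C1, hC1⟩ : ∃ C1 : ℕ, C1 = ∑ j, ∑ k, (A j k).natAbs := ⟨_, rfl⟩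
  refine ⟨1 + C1 + (R * minor L 0).natAbs, by omega, fun x hx => ⟨?_, ?_⟩⟩
  · obtain ⟨i, -, hi⟩ := Finset.exists_max_image (Finset.univ : Finset (Fin (n + 2)))
      (fun i => (form L i x).natAbs) ⟨0, Finset.mem_univ _⟩
    refine ⟨i, ?_⟩
    have h1 : ht x ≤ C1 * (form L i x).natAbs := by
      refine ht_le x _ fun j => ?_
      calc (x j).natAbs = 1 * (x j).natAbs := (one_mul _).symm
        _ ≤ (minor L 0).natAbs * (x j).natAbs :=
            Nat.mul_le_mul_right _ (Int.natAbs_pos.2 (hL 0))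
        _ = (minor L 0 * x j).natAbs := (Int.natAbs_mul _ _).symm
        _ = (∑ k, A j k * form L (Fin.succAbove 0 k) x).natAbs := by rw [hcr]
        _ ≤ ∑ k, (A j k * form L (Fin.succAbove 0 k) x).natAbs := Int.natAbs_sum_le _ _
        _ ≤ ∑ k, (A j k).natAbs * (form L i x).natAbs := by
            refine Finset.sum_le_sum fun k _ => ?_
            rw [Int.natAbs_mul]
            exact Nat.mul_le_mul_left _ (hi _ (Finset.mem_univ _))
        _ = (∑ k, (A j k).natAbs) * (form L i x).natAbs := by rw [Finset.sum_mul]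
        _ ≤ C1 * (form L i x).natAbs := by
            apply Nat.mul_le_mul_right
            rw [hC1]
            exact Finset.single_le_sum (f := fun j => ∑ k, (A j k).natAbs)
              (fun _ _ => Nat.zero_le _) (Finset.mem_univ j)
    have h2 : ht x ≤ (1 + C1 + (R * minor L 0).natAbs) * (form L i x).natAbs :=
      h1.trans (Nat.mul_le_mul_right _ (by omega))
    have h3 : ((ht x : ℕ) : ℤ) ≤
        (((1 + C1 + (R * minor L 0).natAbs) * (form L i x).natAbs : ℕ) : ℤ) := by
      exact_mod_cast h2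
    refine h3.trans (le_of_eq ?_)
    rw [Nat.cast_mul, Int.natCast_natAbs (form L i x)]
  · intro g hg
    have h1 : ∀ i, g ∣ R * form L i x := by
      intro i
      obtain ⟨c, hc⟩ : rel L i ∣ R := by
        rw [hR]
        exact Finset.dvd_prod_of_mem _ (Finset.mem_univ i)
      rw [hc, show rel L i * c * form L i x = rel L i * form L i x * c by ring]
      exact (hg i).mul_right _
    have h2 : ∀ j, g ∣ (R * minor L 0) * x j := by
      intro j
      rw [mul_assoc, hcr x j, Finset.mul_sum]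
      refine Finset.dvd_sum fun k _ => ?_
      rw [show R * (A j k * form L (Fin.succAbove 0 k) x) =
        R * form L (Fin.succAbove 0 k) x * A j k by ring]
      exact (h1 _).mul_right _
    have h3 : IsUnit (Finset.univ.gcd x) :=
      hx _ fun j => Finset.gcd_dvd (Finset.mem_univ j)
    have h4 : g ∣ Finset.univ.gcd (fun j => (R * minor L 0) * x j) :=
      Finset.dvd_gcd fun j _ => h2 j
    rw [Finset.gcd_mul_left] at h4
    have h5 : g ∣ normalize (R * minor L 0) := (h3.dvd_mul_right).1 h4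
    have h6 : g ∣ R * minor L 0 := dvd_normalize_iff.1 h5
    have h7 : g.natAbs ≤ (R * minor L 0).natAbs :=
      Nat.le_of_dvd (Int.natAbs_pos.2 (mul_ne_zero hR0 (hL 0))) (Int.natAbs_dvd_natAbs.2 h6)
    rw [← Int.natCast_natAbs]
    exact_mod_cast h7.trans (by omega)

end Pool.Agent.Helper24.TU
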