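import Pool.Agent.Helper24.TU.Defs
import Pool.Agent.Helper91.CPX.Lower

/-!
TU-13. Lower bound on the plane, `lam = 1 / m`.

Proof. Copy the end of `Helper91/CPX/Lower.lean` (the private lemmas `low_sum`, `low_coprime`, `low_form` too). The points: `x = (u^m, -u^m, v^m)`, `u, v ≤ Z = ⌊B^(1/m)⌋` coprime, `≥ 1`. The values of the
forms of `Lstd` are `u^m, -u^m, v^m, v^m`; `radS ∅ (u^m) ≤ u` (the primes of `u^m` are those of `u`, their product divides `u`), and `u ≤ max u v = (ht x)^(1/m)` because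
`ht x = max (u^m) (v^m) = (max u v)^m`. `ht x ≤ B`.
-/

set_option autoImplicit false

open Pool.Agent.Helper87.Camp Pool.Agent.Helper10 Pool.Agent.Helper91.CPX

namespace Pool.Agent.Helper24.TU

private theorem low_sum (Z : ℕ) (hZ : 1 ≤ Z) :
    ∑ d ∈ Finset.Icc 2 Z, (1 : ℝ) / (d : ℝ) ^ 2 ≤ 3 / 4 := by
  have key : ∀ Z : ℕ, 2 ≤ Z → ∑ d ∈ Finset.Icc 2 Z, (1 : ℝ) / (d : ℝ) ^ 2 ≤ 3 / 4 - 1 / (Z : ℝ) := by
    intro Z hZ2
    induction Z, hZ2 using Nat.le_induction with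
    | base => norm_num
    | succ n hn ih =>
      rw [Finset.sum_Icc_succ_top (by omega)]
      have hn0 : (0 : ℝ) < n := by
        have : 0 < n := by omega
        exact_mod_cast this
      have h1 : (1 : ℝ) / ((n + 1 : ℕ) : ℝ) ^ 2 ≤ 1 / (n : ℝ) - 1 / ((n + 1 : ℕ) : ℝ) := by
        push_cast
        rw [div_sub_div _ _ hn0.ne' (by positivity), div_le_div_iff₀ (by positivity) (by positivity)]
        nlinarith
      linarith
  rcases Nat.lt_or_ge Z 2 with h | h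
  · have : Finset.Icc 2 Z = ∅ := by
      rw [Finset.Icc_eq_empty_iff]
      omega
    rw [this]
    norm_num
  · have h2 := key Z h
    have : (0 : ℝ) ≤ 1 / (Z : ℝ) := by positivity
    linarith

private theorem low_coprime (Z : ℕ) (hZ : 1 ≤ Z) :
    (Z : ℝ) ^ 2 / 4 ≤
      (((Finset.Icc 1 Z ×ˢ Finset.Icc 1 Z).filter (fun w => Nat.Coprime w.1 w.2)).card : ℝ) := by
  have hsplit := Finset.card_filter_add_card_filter_not
    (s := Finset.Icc 1 Z ×ˢ Finset.Icc 1 Z) (fun w : ℕ × ℕ => Nat.Coprime w.1 w.2)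
  have hall : (Finset.Icc 1 Z ×ˢ Finset.Icc 1 Z).card = Z ^ 2 := by
    rw [Finset.card_product, Nat.card_Icc]
    simp only [Nat.add_sub_cancel]
    ring
  have hsub : (Finset.Icc 1 Z ×ˢ Finset.Icc 1 Z).filter (fun w => ¬ Nat.Coprime w.1 w.2) ⊆
      (Finset.Icc 2 Z).biUnion (fun d =>
        (Finset.Icc 1 (Z / d) ×ˢ Finset.Icc 1 (Z / d)).image (fun w => (d * w.1, d * w.2))) := by
    intro w hw
    rw [Finset.mem_filter, Finset.mem_product, Finset.mem_Icc, Finset.mem_Icc] at hw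
    obtain ⟨⟨⟨h1, h2⟩, ⟨h3, h4⟩⟩, h5⟩ := hw
    have hg : Nat.gcd w.1 w.2 ≠ 1 := h5
    have hgpos : 0 < Nat.gcd w.1 w.2 := Nat.gcd_pos_of_pos_left _ (by omega)
    obtain ⟨a, ha⟩ := Nat.gcd_dvd_left w.1 w.2
    obtain ⟨b, hb⟩ := Nat.gcd_dvd_right w.1 w.2
    have hgle : Nat.gcd w.1 w.2 ≤ Z := (Nat.le_of_dvd (by omega) (Nat.gcd_dvd_left _ _)).trans h2
    rw [Finset.mem_biUnion]
    refine ⟨Nat.gcd w.1 w.2, by rw [Finset.mem_Icc]; omega, ?_⟩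
    rw [Finset.mem_image]
    refine ⟨(a, b), ?_, ?_⟩
    · rw [Finset.mem_product, Finset.mem_Icc, Finset.mem_Icc]
      refine ⟨⟨?_, ?_⟩, ⟨?_, ?_⟩⟩
      · rcases Nat.eq_zero_or_pos a with h | h
        · rw [h, mul_zero] at ha; omega
        · exact h
      · rw [Nat.le_div_iff_mul_le hgpos, mul_comm]
        exact ha ▸ h2
      · rcases Nat.eq_zero_or_pos b with h | h
        · rw [h, mul_zero] at hb; omega
        · exact h
      · rw [Nat.le_div_iff_mul_le hgpos, mul_comm]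
        exact hb ▸ h4
    · exact Prod.ext ha.symm hb.symm
  have hcard : (((Finset.Icc 1 Z ×ˢ Finset.Icc 1 Z).filter
      (fun w => ¬ Nat.Coprime w.1 w.2)).card : ℝ) ≤ 3 / 4 * (Z : ℝ) ^ 2 := by
    have h1 : ((Finset.Icc 1 Z ×ˢ Finset.Icc 1 Z).filter
        (fun w => ¬ Nat.Coprime w.1 w.2)).card ≤ ∑ d ∈ Finset.Icc 2 Z, (Z / d) ^ 2 := by
      refine (Finset.card_le_card hsub).trans (Finset.card_biUnion_le.trans ?_)
      apply Finset.sum_le_sum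
      intro d _
      refine Finset.card_image_le.trans ?_
      rw [Finset.card_product, Nat.card_Icc]
      simp only [Nat.add_sub_cancel]
      exact le_of_eq (by ring)
    have h2 : ((∑ d ∈ Finset.Icc 2 Z, (Z / d) ^ 2 : ℕ) : ℝ) ≤
        ∑ d ∈ Finset.Icc 2 Z, (1 : ℝ) / (d : ℝ) ^ 2 * (Z : ℝ) ^ 2 := by
      push_cast
      apply Finset.sum_le_sum
      intro d _
      have h3 : ((Z / d : ℕ) : ℝ) ≤ (Z : ℝ) / (d : ℝ) := Nat.cast_div_le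
      calc ((Z / d : ℕ) : ℝ) ^ 2 ≤ ((Z : ℝ) / (d : ℝ)) ^ 2 :=
            pow_le_pow_left₀ (Nat.cast_nonneg _) h3 2
        _ = _ := by ring
    rw [← Finset.sum_mul] at h2
    calc _ ≤ ((∑ d ∈ Finset.Icc 2 Z, (Z / d) ^ 2 : ℕ) : ℝ) := by exact_mod_cast h1
      _ ≤ _ := h2
      _ ≤ _ := mul_le_mul_of_nonneg_right (low_sum Z hZ) (by positivity)
  have hs : ((((Finset.Icc 1 Z ×ˢ Finset.Icc 1 Z).filter
      (fun w => Nat.Coprime w.1 w.2)).card : ℕ) : ℝ) +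
      (((Finset.Icc 1 Z ×ˢ Finset.Icc 1 Z).filter
      (fun w => ¬ Nat.Coprime w.1 w.2)).card : ℝ) = (Z : ℝ) ^ 2 := by
    rw [hall] at hsplit
    exact_mod_cast hsplit
  linarith

private theorem low_form (a b : ℤ) (i : Fin (2 + 2)) :
    form Lstd i (![a, -a, b] : Fin (2 + 1) → ℤ) = (![a, -a, b, b] : Fin (2 + 2) → ℤ) i := by
  unfold form Lstd
  fin_cases i <;> simp [Fin.sum_univ_succ]

private theorem low_rad (m u v : ℕ) (hm : 1 ≤ m) (hu : 1 ≤ u) (hv : 1 ≤ v) :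
    (radS ∅ ((u : ℤ) ^ m) : ℝ) ≤
      (ht (![(u : ℤ) ^ m, -(u : ℤ) ^ m, (v : ℤ) ^ m] : Fin (2 + 1) → ℤ) : ℝ) ^ (1 / (m : ℝ)) ∧
    (radS ∅ (-(u : ℤ) ^ m) : ℝ) ≤
      (ht (![(u : ℤ) ^ m, -(u : ℤ) ^ m, (v : ℤ) ^ m] : Fin (2 + 1) → ℤ) : ℝ) ^ (1 / (m : ℝ)) ∧
    (radS ∅ ((v : ℤ) ^ m) : ℝ) ≤
      (ht (![(u : ℤ) ^ m, -(u : ℤ) ^ m, (v : ℤ) ^ m] : Fin (2 + 1) → ℤ) : ℝ) ^ (1 / (m : ℝ)) := by
  have hm0 : (0 : ℝ) < m := by exact_mod_cast hm
  have hrad : ∀ w : ℕ, 1 ≤ w → radS ∅ ((w : ℤ) ^ m) ≤ w := by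
    intro w hw
    unfold radS
    have h1 : ((w : ℤ) ^ m).natAbs = w ^ m := by
      rw [Int.natAbs_pow, Int.natAbs_natCast]
    rw [h1, Nat.primeFactors_pow w (by omega)]
    have h2 : (w.primeFactors.filter (fun p => p ∉ (∅ : Finset ℕ))) = w.primeFactors := by
      apply Finset.filter_true_of_mem
      intro p _
      exact Finset.notMem_empty p
    rw [h2]
    exact Nat.le_of_dvd (by omega) (Nat.prod_primeFactors_dvd w)
  have hneg : ∀ a : ℤ, radS ∅ (-a) = radS ∅ a := by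
    intro a
    unfold radS
    rw [Int.natAbs_neg]
  have hroot : ∀ w : ℕ, ∀ H : ℕ, w ^ m ≤ H → (w : ℝ) ≤ (H : ℝ) ^ (1 / (m : ℝ)) := by
    intro w H h
    have h1 : ((w : ℝ) ^ m) ^ (1 / (m : ℝ)) = w := by
      rw [← Real.rpow_natCast, ← Real.rpow_mul (Nat.cast_nonneg w)]
      rw [one_div, mul_inv_cancel₀ hm0.ne', Real.rpow_one]
    rw [← h1]
    apply Real.rpow_le_rpow (by positivity) (by exact_mod_cast h) (by positivity)
  have hu' : u ^ m ≤ ht (![(u : ℤ) ^ m, -(u : ℤ) ^ m, (v : ℤ) ^ m] : Fin (2 + 1) → ℤ) := by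
    have h := le_ht (![(u : ℤ) ^ m, -(u : ℤ) ^ m, (v : ℤ) ^ m] : Fin (2 + 1) → ℤ) 0
    have h' : ((u : ℤ) ^ m).natAbs ≤
      ht (![(u : ℤ) ^ m, -(u : ℤ) ^ m, (v : ℤ) ^ m] : Fin (2 + 1) → ℤ) := h
    rwa [Int.natAbs_pow, Int.natAbs_natCast] at h'
  have hv' : v ^ m ≤ ht (![(u : ℤ) ^ m, -(u : ℤ) ^ m, (v : ℤ) ^ m] : Fin (2 + 1) → ℤ) := by
    have h := le_ht (![(u : ℤ) ^ m, -(u : ℤ) ^ m, (v : ℤ) ^ m] : Fin (2 + 1) → ℤ) 2
    have h' : ((v : ℤ) ^ m).natAbs ≤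
      ht (![(u : ℤ) ^ m, -(u : ℤ) ^ m, (v : ℤ) ^ m] : Fin (2 + 1) → ℤ) := h
    rwa [Int.natAbs_pow, Int.natAbs_natCast] at h'
  have h1 : (radS ∅ ((u : ℤ) ^ m) : ℝ) ≤
      (ht (![(u : ℤ) ^ m, -(u : ℤ) ^ m, (v : ℤ) ^ m] : Fin (2 + 1) → ℤ) : ℝ) ^ (1 / (m : ℝ)) :=
    le_trans (by exact_mod_cast hrad u hu) (hroot u _ hu')
  refine ⟨h1, ?_, ?_⟩
  · rw [hneg]
    exact h1
  · exact le_trans (by exact_mod_cast hrad v hv) (hroot v _ hv')

theorem trunc_lower (m : ℕ) (hm : 1 ≤ m) :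
    ∃ c : ℝ, 0 < c ∧ ∀ B : ℕ, 1 ≤ B →
      c * (B : ℝ) ^ (2 * (1 / (m : ℝ))) ≤
        ({x : Fin (2 + 1) → ℤ | (∀ d : ℤ, (∀ j, d ∣ x j) → IsUnit d) ∧
          (∀ i, form Lstd i x ≠ 0 ∧ (radS ∅ (form Lstd i x) : ℝ) ≤ (ht x : ℝ) ^ (1 / (m : ℝ))) ∧
          ht x ≤ B}.ncard : ℝ) := by
  refine ⟨1 / 16, by norm_num, fun B hB => ?_⟩
  have hm0 : (0 : ℝ) < m := by exact_mod_cast hm
  set r : ℝ := (B : ℝ) ^ (1 / (m : ℝ)) with hr
  have hB1 : (1 : ℝ) ≤ B := by exact_mod_cast hB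
  have hr1 : 1 ≤ r := Real.one_le_rpow hB1 (by positivity)
  have hrm : r ^ m = B := by
    rw [hr, ← Real.rpow_natCast, ← Real.rpow_mul (by positivity)]
    rw [one_div, inv_mul_cancel₀ hm0.ne', Real.rpow_one]
  have hr2 : (B : ℝ) ^ (2 * (1 / (m : ℝ))) = r ^ 2 := by
    rw [hr, ← Real.rpow_natCast, ← Real.rpow_mul (by positivity)]
    congr 1
    push_cast
    ring
  set Z : ℕ := ⌊r⌋₊ with hZ
  have hZ1 : 1 ≤ Z := by
    rw [hZ]
    exact Nat.le_floor (by exact_mod_cast hr1)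
  have hZr : (Z : ℝ) ≤ r := Nat.floor_le (by linarith)
  have hrZ : r < Z + 1 := Nat.lt_floor_add_one r
  have hZ1' : (1 : ℝ) ≤ Z := by exact_mod_cast hZ1
  have hpow : ∀ u : ℕ, u ≤ Z → u ^ m ≤ B := by
    intro u hu
    have h1 : (u : ℝ) ≤ r := le_trans (by exact_mod_cast hu) hZr
    have h2 : (u : ℝ) ^ m ≤ r ^ m := pow_le_pow_left₀ (Nat.cast_nonneg _) h1 m
    rw [hrm] at h2
    exact_mod_cast h2
  set T : Set (Fin (2 + 1) → ℤ) := {x : Fin (2 + 1) → ℤ | (∀ d : ℤ, (∀ j, d ∣ x j) → IsUnit d) ∧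
          (∀ i, form Lstd i x ≠ 0 ∧ (radS ∅ (form Lstd i x) : ℝ) ≤ (ht x : ℝ) ^ (1 / (m : ℝ))) ∧
          ht x ≤ B} with hT
  have hfin : T.Finite := by
    apply (Set.finite_Icc (fun _ : Fin (2 + 1) => (-(B : ℤ))) (fun _ => (B : ℤ))).subset
    intro x hx
    have hx2 : ∀ j, (x j).natAbs ≤ B := fun j => (le_ht x j).trans hx.2.2
    refine ⟨fun j => ?_, fun j => ?_⟩
    · have := hx2 j
      change -(B : ℤ) ≤ x j
      omega
    · have := hx2 j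
      change x j ≤ (B : ℤ)
      omega
  set P := (Finset.Icc 1 Z ×ˢ Finset.Icc 1 Z).filter (fun w : ℕ × ℕ => Nat.Coprime w.1 w.2)
    with hP
  set F : ℕ × ℕ → (Fin (2 + 1) → ℤ) :=
    fun w => ![(w.1 : ℤ) ^ m, -(w.1 : ℤ) ^ m, (w.2 : ℤ) ^ m] with hF
  have hinj : Function.Injective F := by
    intro w w' hw
    have h0 : (w.1 : ℤ) ^ m = (w'.1 : ℤ) ^ m := congrFun hw 0
    have h2 : (w.2 : ℤ) ^ m = (w'.2 : ℤ) ^ m := congrFun hw 2
    have h0' : w.1 ^ m = w'.1 ^ m := by exact_mod_cast h0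
    have h2' : w.2 ^ m = w'.2 ^ m := by exact_mod_cast h2
    exact Prod.ext (Nat.pow_left_injective (by omega) h0')
      (Nat.pow_left_injective (by omega) h2')
  have hsub : ((P.image F : Finset (Fin (2 + 1) → ℤ)) : Set (Fin (2 + 1) → ℤ)) ⊆ T := by
    intro x hx
    rw [Finset.mem_coe, Finset.mem_image] at hx
    obtain ⟨w, hw, rfl⟩ := hx
    rw [hP, Finset.mem_filter, Finset.mem_product, Finset.mem_Icc, Finset.mem_Icc] at hw
    obtain ⟨⟨⟨h1, h2⟩, ⟨h3, h4⟩⟩, h5⟩ := hw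
    obtain ⟨hr1', hr2', hr3'⟩ := low_rad m w.1 w.2 hm h1 h3
    have hne1 : ((w.1 : ℤ)) ^ m ≠ 0 := pow_ne_zero _ (by exact_mod_cast (by omega : w.1 ≠ 0))
    have hne2 : ((w.2 : ℤ)) ^ m ≠ 0 := pow_ne_zero _ (by exact_mod_cast (by omega : w.2 ≠ 0))
    refine ⟨?_, ?_, ?_⟩
    · intro d hd
      have h0 : d ∣ (w.1 : ℤ) ^ m := hd 0
      have h2' : d ∣ (w.2 : ℤ) ^ m := hd 2
      have hc : IsCoprime ((w.1 : ℤ) ^ m) ((w.2 : ℤ) ^ m) :=
        (Nat.isCoprime_iff_coprime.mpr h5).pow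
      exact hc.isUnit_of_dvd' h0 h2'
    · intro i
      rw [hF]
      simp only
      rw [low_form]
      fin_cases i
      · exact ⟨hne1, hr1'⟩
      · exact ⟨neg_ne_zero.mpr hne1, hr2'⟩
      · exact ⟨hne2, hr3'⟩
      · exact ⟨hne2, hr3'⟩
    · apply ht_le
      have h6 : w.1 ^ m ≤ B := hpow w.1 h2
      have h7 : w.2 ^ m ≤ B := hpow w.2 h4
      intro j
      fin_cases j
      · change ((w.1 : ℤ) ^ m).natAbs ≤ B
        rw [Int.natAbs_pow, Int.natAbs_natCast]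
        exact h6
      · change (-(w.1 : ℤ) ^ m).natAbs ≤ B
        rw [Int.natAbs_neg, Int.natAbs_pow, Int.natAbs_natCast]
        exact h6
      · change ((w.2 : ℤ) ^ m).natAbs ≤ B
        rw [Int.natAbs_pow, Int.natAbs_natCast]
        exact h7
  have hcard : P.card ≤ T.ncard := by
    rw [← Finset.card_image_of_injective P hinj, ← Set.ncard_coe_finset]
    exact Set.ncard_le_ncard hsub hfin
  have hcard' : (P.card : ℝ) ≤ (T.ncard : ℝ) := by exact_mod_cast hcard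
  have hlow := low_coprime Z hZ1
  rw [hr2]
  have h3 : r ^ 2 ≤ (2 * (Z : ℝ)) ^ 2 := by
    apply pow_le_pow_left₀ (by linarith)
    linarith
  calc 1 / 16 * r ^ 2 ≤ 1 / 16 * (2 * (Z : ℝ)) ^ 2 := by linarith
    _ = (Z : ℝ) ^ 2 / 4 := by ring
    _ ≤ _ := hlow
    _ ≤ _ := hcard'

end Pool.Agent.Helper24.TU
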