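import Pool.Agent.Helper24.TU.Geo

/-!
# Every solution of `a₀ + ⋯ + aₙ₊₁ = 0` is a point of `ℙⁿ` for given hyperplanes in general position

For `n + 2` integer linear forms in general position and a primitive integer vector `u` with sum zero there is a
primitive `x` for which the numbers `rel L i * form L i x` are proportional to the `u i`, with bounded factors.
-/

set_option autoImplicit false

open Pool.Agent.Helper87.Camp Pool.Agent.Helper10 Pool.Agent.Helper91.CPX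

namespace Pool.Agent.Helper24.TU

open Matrix

theorem prim_dvd {m : ℕ} {u : Fin m → ℤ} (hu : ∀ d : ℤ, (∀ i, d ∣ u i) → IsUnit d) {g c : ℤ}
    (h : ∀ i, g ∣ c * u i) : g ∣ c := by
  have h1 : g ∣ Finset.univ.gcd (fun i => c * u i) := Finset.dvd_gcd fun i _ => h i
  rw [Finset.gcd_mul_left] at h1
  have h2 : IsUnit (Finset.univ.gcd u) := hu _ fun i => Finset.gcd_dvd (Finset.mem_univ i)
  have h3 : g ∣ normalize c := (h2.dvd_mul_right).1 h1
  exact (dvd_normalize_iff).1 h3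

theorem prop_pm {m : ℕ} {u u' : Fin m → ℤ} (hu : ∀ d : ℤ, (∀ i, d ∣ u i) → IsUnit d)
    (hu' : ∀ d : ℤ, (∀ i, d ∣ u' i) → IsUnit d) {c c' : ℤ} (hc : c ≠ 0)
    (h : ∀ i, c * u i = c' * u' i) : u = u' ∨ u = fun i => - u' i := by
  have h1 : c ∣ c' := prim_dvd hu' fun i => ⟨u i, (h i).symm⟩
  have h2 : c' ∣ c := prim_dvd hu fun i => ⟨u' i, h i⟩
  rcases Int.natAbs_eq_natAbs_iff.1 (Int.natAbs_eq_of_dvd_dvd h1 h2) with h3 | h3
  · left
    funext i
    have h4 := h i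
    rw [← h3] at h4
    exact mul_left_cancel₀ hc h4
  · right
    funext i
    have h4 := h i
    have h5 : c' = - c := by rw [h3, neg_neg]
    rw [h5] at h4
    have h6 : c * u i = c * (- u' i) := by rw [h4]; ring
    exact mul_left_cancel₀ hc h6

/-- an integer vector with prescribed values of the forms, up to a factor -/
theorem realize0 {n : ℕ} (L : Matrix (Fin (n + 2)) (Fin (n + 1)) ℤ) (hL : ∀ i, minor L i ≠ 0) :
    ∃ c : ℤ, c ≠ 0 ∧ ∀ u : Fin (n + 2) → ℤ, ∑ i, u i = 0 →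
      ∃ x : Fin (n + 1) → ℤ, ∀ i, rel L i * form L i x = c * u i := by
  classical
  have hrel : ∀ i, rel L i ≠ 0 := by
    intro i
    unfold rel
    exact mul_ne_zero (pow_ne_zero _ (by norm_num)) (hL i)
  obtain ⟨M, hM⟩ : ∃ M : Matrix (Fin (n + 1)) (Fin (n + 1)) ℤ, M = L.submatrix (Fin.succAbove 0) id := ⟨_, rfl⟩
  obtain ⟨R, hR⟩ : ∃ R : ℤ, R = ∏ k : Fin (n + 1), rel L (Fin.succAbove 0 k) := ⟨_, rfl⟩
  have hR0 : R ≠ 0 := by
    rw [hR]
    exact Finset.prod_ne_zero_iff.2 fun k _ => hrel _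
  have hdet : M.det ≠ 0 := by
    rw [hM]
    exact hL 0
  refine ⟨M.det * R, mul_ne_zero hdet hR0, fun u hu => ?_⟩
  obtain ⟨w, hw⟩ : ∃ w : Fin (n + 1) → ℤ, w = fun k =>
      (∏ l ∈ Finset.univ.erase k, rel L (Fin.succAbove 0 l)) * u (Fin.succAbove 0 k) := ⟨_, rfl⟩
  refine ⟨M.adjugate *ᵥ w, ?_⟩
  have h1 : M *ᵥ (M.adjugate *ᵥ w) = M.det • w := by
    rw [Matrix.mulVec_mulVec, Matrix.mul_adjugate, Matrix.smul_mulVec, Matrix.one_mulVec]
  have h2 : ∀ k : Fin (n + 1), rel L (Fin.succAbove 0 k) * form L (Fin.succAbove 0 k) (M.adjugate *ᵥ w) =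
      M.det * R * u (Fin.succAbove 0 k) := by
    intro k
    have h3 : form L (Fin.succAbove 0 k) (M.adjugate *ᵥ w) = (M *ᵥ (M.adjugate *ᵥ w)) k := by
      unfold form
      rw [Matrix.mulVec, dotProduct, hM]
      rfl
    rw [h3, h1, Pi.smul_apply, smul_eq_mul, hw, hR,
      ← Finset.mul_prod_erase Finset.univ (fun l => rel L (Fin.succAbove 0 l)) (Finset.mem_univ k)]
    ring
  intro i
  rcases Fin.eq_self_or_eq_succAbove 0 i with rfl | ⟨k, rfl⟩
  · have h4 := rel_form_sum L (M.adjugate *ᵥ w)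
    rw [Fin.sum_univ_succAbove _ 0] at h4
    rw [Fin.sum_univ_succAbove _ 0] at hu
    have h5 : ∑ k : Fin (n + 1), rel L (Fin.succAbove 0 k) * form L (Fin.succAbove 0 k) (M.adjugate *ᵥ w) =
        M.det * R * ∑ k : Fin (n + 1), u (Fin.succAbove 0 k) := by
      rw [Finset.mul_sum]
      exact Finset.sum_congr rfl fun k _ => h2 k
    rw [h5] at h4
    have h6 : u 0 = - ∑ k : Fin (n + 1), u (Fin.succAbove 0 k) := by linarith
    rw [h6]
    linarith
  · exact h2 k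

/-- **Transfer.** -/
theorem realize {n : ℕ} (L : Matrix (Fin (n + 2)) (Fin (n + 1)) ℤ) (hL : ∀ i, minor L i ≠ 0) :
    ∃ A : ℕ, 1 ≤ A ∧ ∀ u : Fin (n + 2) → ℤ, ∑ i, u i = 0 → (∀ d : ℤ, (∀ i, d ∣ u i) → IsUnit d) →
      ∃ x : Fin (n + 1) → ℤ, (∀ d : ℤ, (∀ j, d ∣ x j) → IsUnit d) ∧
        (∃ c : ℤ, c ≠ 0 ∧ ∀ i, rel L i * form L i x = c * u i) ∧
        (∀ i, form L i x ∣ A * u i) ∧ (∀ i, (u i).natAbs ≤ A * ht x) ∧
        ∃ i, ht x ≤ A * (u i).natAbs := by
  classical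
  have hrel : ∀ i, rel L i ≠ 0 := by
    intro i
    unfold rel
    exact mul_ne_zero (pow_ne_zero _ (by norm_num)) (hL i)
  obtain ⟨c, hc, h0⟩ := realize0 L hL
  obtain ⟨G, hG, hgeo⟩ := geo L hL
  obtain ⟨C0, hC0⟩ : ∃ C0 : ℕ, C0 = (∑ i, (rel L i).natAbs * ∑ j, (L i j).natAbs) + 1 := ⟨_, rfl⟩
  have hsize : ∀ (x : Fin (n + 1) → ℤ) (i : Fin (n + 2)), (rel L i * form L i x).natAbs ≤ C0 * ht x := by
    intro x i
    have h1 : (form L i x).natAbs ≤ (∑ j, (L i j).natAbs) * ht x := by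
      unfold form
      rw [Finset.sum_mul]
      refine (Int.natAbs_sum_le _ _).trans (Finset.sum_le_sum fun j _ => ?_)
      rw [Int.natAbs_mul]
      exact Nat.mul_le_mul_left _ (le_ht x j)
    calc (rel L i * form L i x).natAbs = (rel L i).natAbs * (form L i x).natAbs := Int.natAbs_mul _ _
      _ ≤ (rel L i).natAbs * ((∑ j, (L i j).natAbs) * ht x) := Nat.mul_le_mul_left _ h1
      _ = ((rel L i).natAbs * ∑ j, (L i j).natAbs) * ht x := by ring
      _ ≤ C0 * ht x := by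
          apply Nat.mul_le_mul_right
          have := Finset.single_le_sum (f := fun i => (rel L i).natAbs * ∑ j, (L i j).natAbs)
            (fun _ _ => Nat.zero_le _) (Finset.mem_univ i)
          omega
  have hcn : 1 ≤ c.natAbs := Nat.one_le_iff_ne_zero.2 (Int.natAbs_ne_zero.2 hc)
  refine ⟨c.natAbs * G * C0, Nat.mul_pos (Nat.mul_pos hcn hG) (by omega), fun u hu hprim => ?_⟩
  obtain ⟨x0, hx0⟩ := h0 u hu
  obtain ⟨g, hg⟩ : ∃ g : ℤ, g = Finset.univ.gcd x0 := ⟨_, rfl⟩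
  have hgd : ∀ j, g ∣ x0 j := fun j => by rw [hg]; exact Finset.gcd_dvd (Finset.mem_univ j)
  have hgc : g ∣ c := by
    refine prim_dvd hprim fun i => ?_
    rw [← hx0 i]
    refine Dvd.dvd.mul_left ?_ _
    unfold form
    exact Finset.dvd_sum fun j _ => Dvd.dvd.mul_left (hgd j) _
  have hg0 : g ≠ 0 := by
    rintro rfl
    exact hc (zero_dvd_iff.1 hgc)
  choose x hx using hgd
  obtain ⟨c', hc'⟩ := hgc
  have hc'0 : c' ≠ 0 := by
    rintro rfl
    exact hc (by rw [hc', mul_zero])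
  have hform : ∀ i, form L i x0 = g * form L i x := by
    intro i
    unfold form
    rw [Finset.mul_sum]
    refine Finset.sum_congr rfl fun j _ => ?_
    rw [hx j]
    ring
  have hval : ∀ i, rel L i * form L i x = c' * u i := by
    intro i
    have h1 := hx0 i
    rw [hform, hc'] at h1
    have h2 : g * (rel L i * form L i x) = g * (c' * u i) := by linarith
    exact mul_left_cancel₀ hg0 h2
  have hxp : ∀ d : ℤ, (∀ j, d ∣ x j) → IsUnit d := by
    intro d hd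
    have h1 : ∀ j, g * d ∣ x0 j := by
      intro j
      rw [hx j]
      exact mul_dvd_mul_left g (hd j)
    have h2 : g * d ∣ g := by
      have h3 : g * d ∣ Finset.univ.gcd x0 := Finset.dvd_gcd fun j _ => h1 j
      rwa [← hg] at h3
    have h3 : g * d ∣ g * 1 := by rwa [mul_one]
    exact isUnit_of_dvd_one ((mul_dvd_mul_iff_left hg0).1 h3)
  have hc'c : c'.natAbs ≤ c.natAbs := by
    rw [hc', Int.natAbs_mul]
    exact Nat.le_mul_of_pos_left _ (Nat.pos_of_ne_zero (Int.natAbs_ne_zero.2 hg0))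
  refine ⟨x, hxp, ⟨c', hc'0, hval⟩, fun i => ?_, fun i => ?_, ?_⟩
  · have h1 : form L i x ∣ c' * u i := by
      rw [← hval i]
      exact dvd_mul_left _ _
    have h2 : c' * u i ∣ c * u i := mul_dvd_mul_right ⟨g, by rw [hc']; ring⟩ _
    have h3 : c * u i ∣ ((c.natAbs * G * C0 : ℕ) : ℤ) * u i := by
      refine mul_dvd_mul_right ?_ _
      push_cast
      rw [mul_assoc]
      exact Dvd.dvd.mul_right ((dvd_abs c c).2 (dvd_refl c)) _
    exact (h1.trans h2).trans h3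
  · calc (u i).natAbs ≤ c'.natAbs * (u i).natAbs :=
          Nat.le_mul_of_pos_left _ (Nat.pos_of_ne_zero (Int.natAbs_ne_zero.2 hc'0))
      _ = (rel L i * form L i x).natAbs := by rw [hval i, Int.natAbs_mul]
      _ ≤ C0 * ht x := hsize x i
      _ ≤ c.natAbs * G * C0 * ht x := by
          apply Nat.mul_le_mul_right
          exact Nat.le_mul_of_pos_left _ (Nat.mul_pos hcn hG)
  · obtain ⟨⟨i, hi⟩, -⟩ := hgeo x hxp
    refine ⟨i, ?_⟩
    have h1 : ht x ≤ G * (form L i x).natAbs := by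
      have h2 : (ht x : ℤ) ≤ ((G * (form L i x).natAbs : ℕ) : ℤ) := by
        push_cast
        rw [← Int.natCast_natAbs] at hi
        simpa using hi
      exact_mod_cast h2
    have h2 : (form L i x).natAbs ≤ c.natAbs * (u i).natAbs := by
      calc (form L i x).natAbs ≤ (rel L i).natAbs * (form L i x).natAbs :=
            Nat.le_mul_of_pos_left _ (Nat.pos_of_ne_zero (Int.natAbs_ne_zero.2 (hrel i)))
        _ = c'.natAbs * (u i).natAbs := by rw [← Int.natAbs_mul, hval i, Int.natAbs_mul]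
        _ ≤ c.natAbs * (u i).natAbs := Nat.mul_le_mul_right _ hc'c
    calc ht x ≤ G * (form L i x).natAbs := h1
      _ ≤ G * (c.natAbs * (u i).natAbs) := Nat.mul_le_mul_left _ h2
      _ = c.natAbs * G * 1 * (u i).natAbs := by ring
      _ ≤ c.natAbs * G * C0 * (u i).natAbs := by
          apply Nat.mul_le_mul_right
          exact Nat.mul_le_mul_left _ (by omega)

/-- the radical of a divisor of `A * a` -/
theorem radS_dvd_le (S : Finset ℕ) {f a : ℤ} {A : ℕ} (hA : 1 ≤ A) (ha : a ≠ 0) (h : f ∣ (A : ℤ) * a) :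
    radS S f ≤ A * radS S a := by
  classical
  obtain ⟨s, hs⟩ : ∃ s : Finset ℕ, s = A.primeFactors := ⟨_, rfl⟩
  obtain ⟨t, ht⟩ : ∃ t : Finset ℕ, t = a.natAbs.primeFactors.filter (fun p => p ∉ S) := ⟨_, rfl⟩
  have h0 : f.natAbs ∣ A * a.natAbs := by
    have h1 := Int.natAbs_dvd_natAbs.2 h
    rwa [Int.natAbs_mul, Int.natAbs_natCast] at h1
  have h1 : f.natAbs.primeFactors.filter (fun p => p ∉ S) ⊆ s ∪ t := by
    intro p hp
    rw [Finset.mem_filter, Nat.mem_primeFactors] at hp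
    obtain ⟨⟨hpp, hpd, -⟩, hpS⟩ := hp
    rw [Finset.mem_union, hs, ht, Finset.mem_filter, Nat.mem_primeFactors, Nat.mem_primeFactors]
    rcases (hpp.dvd_mul).1 (hpd.trans h0) with h2 | h2
    · exact Or.inl ⟨hpp, h2, by omega⟩
    · exact Or.inr ⟨⟨hpp, h2, Int.natAbs_ne_zero.2 ha⟩, hpS⟩
  have hpos : ∀ p ∈ s ∪ t, 1 ≤ p := by
    intro p hp
    rw [Finset.mem_union, hs, ht, Finset.mem_filter] at hp
    rcases hp with hp | hp
    · exact (Nat.prime_of_mem_primeFactors hp).one_lt.le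
    · exact (Nat.prime_of_mem_primeFactors hp.1).one_lt.le
  have h2 : radS S f ≤ ∏ p ∈ s ∪ t, p := by
    unfold radS
    exact Finset.prod_le_prod_of_subset_of_one_le' h1 fun p hp _ => hpos p hp
  have h3 : (∏ p ∈ s ∪ t, p) * ∏ p ∈ s ∩ t, p = (∏ p ∈ s, p) * ∏ p ∈ t, p := Finset.prod_union_inter
  have h4 : 1 ≤ ∏ p ∈ s ∩ t, p :=
    Finset.one_le_prod' fun p hp => hpos p (Finset.mem_union_left _ (Finset.mem_of_mem_inter_left hp))
  have h5 : ∏ p ∈ s, p ≤ A := by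
    rw [hs]
    exact Nat.le_of_dvd (by omega) (Nat.prod_primeFactors_dvd A)
  have h6 : radS S a = ∏ p ∈ t, p := by rw [ht]; rfl
  calc radS S f ≤ (∏ p ∈ s ∪ t, p) * 1 := by rw [mul_one]; exact h2
    _ ≤ (∏ p ∈ s ∪ t, p) * ∏ p ∈ s ∩ t, p := Nat.mul_le_mul_left _ h4
    _ = (∏ p ∈ s, p) * ∏ p ∈ t, p := h3
    _ ≤ A * ∏ p ∈ t, p := Nat.mul_le_mul_right _ h5
    _ = A * radS S a := by rw [h6]

end Pool.Agent.Helper24.TU
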