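import Pool.Agent.Helper24.TU.Defs

/-!
TU-02. Representation of a number by the exponents `1, ..., E` and an `(E+1)`-full number.

Proof. `y j = ∏ {p : p ∣ n, p ∉ S, v_p(n) = j + 1}` (`j < E`), `w = ∏ {p ∣ n : p ∈ S ∨ E < v_p(n)} p ^ v_p(n)`. The product formula: split
`n = ∏_{p ∣ n} p ^ v_p(n)` (`Nat.prod_factorization_pow_eq_self`) by the value of `v_p(n)` (`Finset.prod_fiberwise` or strong induction on `n`
as in `Helper91/CPX/Rep.lean`, removing one prime power at a time: `n = p ^ e n'`; if `p ∈ S` or `e > E` multiply `w` by `p ^ e`, otherwise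
multiply `y (e - 1)` by `p`; for the induction carry `∏ y j` divides/equals a product of primes outside `S` dividing `n`, for example
`(∏ j, y j) ∣ radS S n`, which follows as `radS S n = p * radS S n'` for `p ∉ S`).
-/

set_option autoImplicit false

open Pool.Agent.Helper87.Camp Pool.Agent.Helper10 Pool.Agent.Helper91.CPX

namespace Pool.Agent.Helper24.TU

private theorem radS_step (S : Finset ℕ) {p e n : ℕ} (hp : p.Prime) (hS : p ∉ S) (he : e ≠ 0)
    (hn : n ≠ 0) (hpn : ¬ p ∣ n) :
    radS S ((p ^ e * n : ℕ) : ℤ) = p * radS S (n : ℤ) := by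
  unfold radS
  rw [Int.natAbs_natCast, Int.natAbs_natCast, Nat.primeFactors_mul (pow_ne_zero e hp.ne_zero) hn,
    Nat.primeFactors_prime_pow he hp, Finset.filter_union, Finset.filter_singleton, if_pos hS,
    ← Finset.insert_eq, Finset.prod_insert]
  intro h
  exact hpn (Nat.dvd_of_mem_primeFactors (Finset.mem_filter.1 h).1)

theorem repE (S : Finset ℕ) (E n : ℕ) (hn : 0 < n) :
    ∃ (w : ℕ) (y : Fin E → ℕ), 0 < w ∧ NFull S (E + 1) w ∧ (∀ j, 0 < y j) ∧
      n = w * ∏ j, y j ^ ((j : ℕ) + 1) ∧ ∏ j, y j ≤ radS S (n : ℤ) := by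
  induction n using Nat.strong_induction_on with
  | _ n ih =>
    by_cases h1 : NFull S (E + 1) n
    · have h3 := radS_pos S (n : ℤ)
      refine ⟨n, fun _ => 1, hn, h1, fun _ => one_pos, by simp, ?_⟩
      rw [Finset.prod_const_one]
      exact h3
    · unfold NFull at h1
      push Not at h1
      obtain ⟨p, hp, hS, hd, hnd⟩ := h1
      obtain ⟨e, n', hpn', hne⟩ := Nat.exists_eq_pow_mul_and_not_dvd hn.ne' p hp.ne_one
      have he0 : e ≠ 0 := by
        intro h0
        rw [h0, pow_zero, one_mul] at hne
        exact hpn' (hne ▸ hd)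
      have heE : e ≤ E := by
        by_contra hlt
        apply hnd
        rw [hne]
        exact (pow_dvd_pow p (by omega)).mul_right n'
      have hn'0 : 0 < n' := by
        rcases Nat.eq_zero_or_pos n' with h0 | h0
        · rw [h0] at hpn'; exact absurd (dvd_zero p) hpn'
        · exact h0
      have hlt : n' < n := by
        rw [hne]
        have : 2 ≤ p ^ e := hp.two_le.trans (Nat.le_self_pow he0 p)
        nlinarith
      obtain ⟨w, y, hw, hwf, hy, hwy, hrad⟩ := ih n' hlt hn'0
      let r : Fin E := ⟨e - 1, by omega⟩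
      refine ⟨w, fun j => y j * (if j = r then p else 1), hw, hwf, fun j => ?_, ?_, ?_⟩
      · have h2 : 0 < (if j = r then p else 1) := by
          split_ifs
          · exact hp.pos
          · exact one_pos
        exact Nat.mul_pos (hy j) h2
      · have h2 : ∀ j : Fin E, (if j = r then p else 1) ^ ((j : ℕ) + 1) =
            if j = r then p ^ e else 1 := by
          intro j
          split_ifs with hj
          · rw [hj]
            have : ((r : Fin E) : ℕ) + 1 = e := by
              simp only [r]
              omega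
            rw [this]
          · exact one_pow _
        simp only [mul_pow, h2]
        rw [Finset.prod_mul_distrib, Finset.prod_ite_eq' Finset.univ r,
          if_pos (Finset.mem_univ _), hne]
        conv_lhs => rw [hwy]
        ring
      · rw [Finset.prod_mul_distrib, Finset.prod_ite_eq' Finset.univ r,
          if_pos (Finset.mem_univ _), hne, radS_step S hp hS he0 hn'0.ne' hpn', mul_comm]
        exact Nat.mul_le_mul_left p hrad

end Pool.Agent.Helper24.TU
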