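import Pool.Agent.Helper24.TU.Dec
import Pool.Agent.Helper91.CPX.R2

/-!
TU-07. The number of representations of `k` as a sum of two numbers of small radical, small `radM`, without small ratio.

Proof. `R2` with `n1 = n2 = M + H`, `H`, `ε2` gives `m0'`; `m0 = max m0' M` (`m0' ≤ m0`; a `NoSmallRatio` for `X^m0` is one for `X^m0'` as `1 ≤ X`; for `m ≥ m0`
we have `M ≤ m ≤ H * m`). Copy `rk_fiber` and `rk_part2` of `Helper91/CPX/Rk.lean` with `decomp2` replaced by `decR` (for `|a|` and `|k - a|`), `Fin H` by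
`Fin (M + H)`, `radW` by `radM`; `|α|, |β| ≤ N ≤ W^(H m) ≤ X^(H m)`. The number of data is at most
`(2 (Cs N^(δ/4)) (Cv D^2 N^(δ/4)) (H m)^(M+H))^2` (`sunit_count`, `small_rad` with `δ/4`), the fibers have at most `C X^ε2` elements.
There is no exceptional part.
-/

set_option autoImplicit false

open Pool.Agent.Helper87.Camp Pool.Agent.Helper10 Pool.Agent.Helper91.CPX

namespace Pool.Agent.Helper24.TU

private lemma rk_fiber (L H m m0 : ℕ) (ε C : ℝ)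
    (hR : ∀ X : ℕ, 2 ≤ X → ∀ α β k : ℤ,
      |α| ≤ (X : ℤ) ^ (H * m) → |β| ≤ (X : ℤ) ^ (H * m) →
      ∀ (e : Fin L → ℕ) (f : Fin L → ℕ), (∀ i, 1 ≤ e i ∧ e i ≤ H * m) →
        (∀ j, 1 ≤ f j ∧ f j ≤ H * m) →
      ∀ T : Finset (Fin L ⊕ Fin L → ℤ),
        (∀ z ∈ T, (∀ i, 1 ≤ z i ∧ z i ≤ (X : ℤ)) ∧
          α * ∏ i, z (Sum.inl i) ^ e i + β * ∏ j, z (Sum.inr j) ^ f j = k ∧
          NoSmallRatio (α * ∏ i, z (Sum.inl i) ^ e i) k ((X : ℤ) ^ m0)) →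
        ((T.image (fun z => ∏ i, z (Sum.inl i) ^ e i)).card : ℝ) ≤ C * (X : ℝ) ^ ε)
    (X : ℕ) (hX : 2 ≤ X) (α β k : ℤ) (hα : |α| ≤ (X : ℤ) ^ (H * m)) (hβ : |β| ≤ (X : ℤ) ^ (H * m))
    (e f : Fin L → ℕ) (he : ∀ i, 1 ≤ e i ∧ e i ≤ H * m) (hf : ∀ j, 1 ≤ f j ∧ f j ≤ H * m)
    (G : Finset ℤ) (x y : ℤ → Fin L → ℕ)
    (hG : ∀ a ∈ G, (∀ i, 1 ≤ x a i ∧ x a i ≤ X) ∧ (∀ i, 1 ≤ y a i ∧ y a i ≤ X) ∧
      a = α * ∏ i, (x a i : ℤ) ^ e i ∧ k - a = β * ∏ i, (y a i : ℤ) ^ f i ∧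
      NoSmallRatio a k ((X : ℤ) ^ m0)) :
    (G.card : ℝ) ≤ C * (X : ℝ) ^ ε := by
  classical
  set z : ℤ → Fin L ⊕ Fin L → ℤ := fun a => Sum.elim (fun i => (x a i : ℤ)) (fun i => (y a i : ℤ))
    with hz
  have h1 := hR X hX α β k hα hβ e f he hf (G.image z) (by
    intro w hw
    obtain ⟨a, ha, rfl⟩ := Finset.mem_image.1 hw
    obtain ⟨g1, g2, g3, g4, g5⟩ := hG a ha
    have e1 : α * ∏ i, z a (Sum.inl i) ^ e i = a := g3.symm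
    have e2 : β * ∏ j, z a (Sum.inr j) ^ f j = k - a := g4.symm
    refine ⟨?_, ?_, ?_⟩
    · rintro (i | i)
      · change 1 ≤ (x a i : ℤ) ∧ (x a i : ℤ) ≤ X
        exact_mod_cast g1 i
      · change 1 ≤ (y a i : ℤ) ∧ (y a i : ℤ) ≤ X
        exact_mod_cast g2 i
    · rw [e1, e2]; ring
    · rw [e1]; exact g5)
  refine le_trans ?_ h1
  rw [Finset.image_image]
  have h2 : (G.image ((fun z : Fin L ⊕ Fin L → ℤ => ∏ i, z (Sum.inl i) ^ e i) ∘ z)).card =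
      G.card := by
    apply Finset.card_image_of_injOn
    intro a ha b hb hab
    have ha' := (hG a ha).2.2.1
    have hb' := (hG b hb).2.2.1
    have hab' : (∏ i, (x a i : ℤ) ^ e i) = ∏ i, (x b i : ℤ) ^ e i := hab
    rw [ha', hb', hab']
  rw [h2]


/-- the second part: `a` with `NoSmallRatio` -/
private lemma rk_part2 (M H m m0 : ℕ) (hM : 1 ≤ M) (hMm : M ≤ H * m) (ε C δ : ℝ) (hC : 0 ≤ C)
    (hR : ∀ X : ℕ, 2 ≤ X → ∀ α β k : ℤ,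
      |α| ≤ (X : ℤ) ^ (H * m) → |β| ≤ (X : ℤ) ^ (H * m) →
      ∀ (e : Fin (M + H) → ℕ) (f : Fin (M + H) → ℕ), (∀ i, 1 ≤ e i ∧ e i ≤ H * m) →
        (∀ j, 1 ≤ f j ∧ f j ≤ H * m) →
      ∀ T : Finset (Fin (M + H) ⊕ Fin (M + H) → ℤ),
        (∀ z ∈ T, (∀ i, 1 ≤ z i ∧ z i ≤ (X : ℤ)) ∧
          α * ∏ i, z (Sum.inl i) ^ e i + β * ∏ j, z (Sum.inr j) ^ f j = k ∧
          NoSmallRatio (α * ∏ i, z (Sum.inl i) ^ e i) k ((X : ℤ) ^ m0)) →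
        ((T.image (fun z => ∏ i, z (Sum.inl i) ^ e i)).card : ℝ) ≤ C * (X : ℝ) ^ ε)
    (S : Finset ℕ) (Cs Cv : ℝ) (hCs : 1 ≤ Cs) (_hCv : 1 ≤ Cv) (N : ℕ) (hN : 1 ≤ N)
    (hs : ∀ F : Finset ℕ,
      (∀ v ∈ F, 1 ≤ v ∧ v ≤ N ∧ ∀ p : ℕ, p.Prime → p ∣ v → p ∈ S) →
      (F.card : ℝ) ≤ Cs * (N : ℝ) ^ δ)
    (W D : ℕ) (_hD : 1 ≤ D) (hv : ∀ F : Finset ℕ,
      (∀ v ∈ F, 1 ≤ v ∧ v ≤ N ∧ ∏ p ∈ v.primeFactors, p ≤ D) →
      (F.card : ℝ) ≤ Cv * (D : ℝ) ^ 2 * (N : ℝ) ^ δ)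
    (hW : N ≤ W ^ (H * m)) (X : ℕ) (hX : 2 ≤ X) (hWX : W ≤ X) (hXW : X ≤ W ^ H) (k : ℤ) (F : Finset ℤ)
    (hF : ∀ a ∈ F, (a ∈ Rset S X N ∧ k - a ∈ Rset S X N ∧ radM S M W a ≤ D ∧
      radM S M W (k - a) ≤ D) ∧ NoSmallRatio a k ((X : ℤ) ^ m0)) :
    (F.card : ℝ) ≤ C * (X : ℝ) ^ ε * (2 * ((Cs * (N : ℝ) ^ δ) * ((Cv * (D : ℝ) ^ 2 * (N : ℝ) ^ δ) *
      ((H * m : ℕ) : ℝ) ^ (M + H)))) ^ 2 := by
  classical
  have hdec : ∀ a : ℤ, ∃ (s v : ℕ) (x e : Fin (M + H) → ℕ), a ∈ Rset S X N →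
      (0 < s ∧ 0 < v ∧ s * v ≤ N ∧
      (∀ p : ℕ, p.Prime → p ∣ s → p ∈ S) ∧
      v.primeFactors = a.natAbs.primeFactors.filter (fun p => p ∉ S ∧ p ≤ W ∧ p ^ M ∣ a.natAbs) ∧
      (∀ i, 1 ≤ x i ∧ x i ≤ X) ∧ (∀ i, 1 ≤ e i ∧ e i ≤ H * m) ∧
      a.natAbs = s * v * ∏ i, x i ^ e i) := by
    intro a
    by_cases ha : a ∈ Rset S X N
    · have ha' := mem_Rset.1 ha
      obtain ⟨s, v, x, e, h⟩ := decR S M H m X W N hM hMm (by omega) hXW hW a.natAbs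
        (Int.natAbs_pos.2 ha'.1) ha'.2.1 (by
          have h3 := ha'.2.2
          unfold radS at h3 ⊢
          rw [Int.natAbs_natCast]
          exact h3)
      exact ⟨s, v, x, e, fun _ => h⟩
    · exact ⟨0, 0, 0, 0, fun h => absurd h ha⟩
  choose s v x e h using hdec
  let dat : ℤ → ℤ × ℕ × ℕ × (Fin (M + H) → ℕ) := fun a => (a.sign, s a, v a, e a)
  let As : Finset ℕ := (Finset.Icc 1 N).filter (fun s => ∀ p : ℕ, p.Prime → p ∣ s → p ∈ S)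
  let Av : Finset ℕ := (Finset.Icc 1 N).filter (fun v => ∏ p ∈ v.primeFactors, p ≤ D)
  let Bx : Finset (ℤ × ℕ × ℕ × (Fin (M + H) → ℕ)) :=
    ({-1, 1} : Finset ℤ) ×ˢ As ×ˢ Av ×ˢ Fintype.piFinset (fun _ : Fin (M + H) => Finset.Icc 1 (H * m))
  have hAs : (As.card : ℝ) ≤ Cs * (N : ℝ) ^ δ := by
    apply hs
    intro v hv
    have := Finset.mem_filter.1 hv
    exact ⟨(Finset.mem_Icc.1 this.1).1, (Finset.mem_Icc.1 this.1).2, this.2⟩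
  have hAv : (Av.card : ℝ) ≤ Cv * (D : ℝ) ^ 2 * (N : ℝ) ^ δ := by
    apply hv
    intro v hv
    have := Finset.mem_filter.1 hv
    exact ⟨(Finset.mem_Icc.1 this.1).1, (Finset.mem_Icc.1 this.1).2, this.2⟩
  have hBx : (Bx.card : ℝ) ≤ 2 * ((Cs * (N : ℝ) ^ δ) * ((Cv * (D : ℝ) ^ 2 * (N : ℝ) ^ δ) *
      ((H * m : ℕ) : ℝ) ^ (M + H))) := by
    have h1 : Bx.card = 2 * (As.card * (Av.card * (H * m) ^ (M + H))) := by
      simp only [Bx, Finset.card_product, Fintype.card_piFinset]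
      simp
    rw [h1]
    push_cast
    have := hAs
    have := hAv
    gcongr
  have hdat : ∀ a : ℤ, a ∈ Rset S X N → radM S M W a ≤ D → dat a ∈ Bx := by
    intro a ha hr
    obtain ⟨h1, h2, h3, h4, h5, h6, h7, h8⟩ := h a ha
    have ha' := mem_Rset.1 ha
    simp only [Bx, dat, Finset.mem_product]
    refine ⟨?_, ?_, ?_, ?_⟩
    · rcases lt_or_gt_of_ne ha'.1 with h9 | h9
      · rw [Int.sign_eq_neg_one_of_neg h9]; simp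
      · rw [Int.sign_eq_one_of_pos h9]; simp
    · refine Finset.mem_filter.2 ⟨Finset.mem_Icc.2 ⟨h1, ?_⟩, h4⟩
      exact (Nat.le_mul_of_pos_right _ h2).trans h3
    · refine Finset.mem_filter.2 ⟨Finset.mem_Icc.2 ⟨h2, ?_⟩, ?_⟩
      · exact (Nat.le_mul_of_pos_left _ h1).trans h3
      · rw [h5]; exact hr
    · rw [Fintype.mem_piFinset]
      intro i
      exact Finset.mem_Icc.2 (h7 i)
  have hform : ∀ a : ℤ, a ∈ Rset S X N →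
      a = (a.sign * ((s a : ℤ) * (v a : ℤ))) * ∏ i, (x a i : ℤ) ^ e a i := by
    intro a ha
    obtain ⟨h1, h2, h3, h4, h5, h6, h7, h8⟩ := h a ha
    have h9 : ((a.natAbs : ℕ) : ℤ) = (s a : ℤ) * (v a : ℤ) * ∏ i, (x a i : ℤ) ^ e a i := by
      rw [h8]; push_cast; rfl
    have h10 : a = a.sign * ((a.natAbs : ℕ) : ℤ) := (Int.sign_mul_natAbs a).symm
    rw [mul_assoc, ← h9]
    exact h10
  have hXm : ∀ t : ℕ, t ≤ N → (t : ℤ) ≤ (X : ℤ) ^ (H * m) := by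
    intro t ht
    have h1 : t ≤ X ^ (H * m) := (ht.trans hW).trans (Nat.pow_le_pow_left hWX _)
    exact_mod_cast h1
  have habs : ∀ a : ℤ, a ∈ Rset S X N →
      |a.sign * ((s a : ℤ) * (v a : ℤ))| ≤ (X : ℤ) ^ (H * m) := by
    intro a ha
    obtain ⟨h1, h2, h3, h4, h5, h6, h7, h8⟩ := h a ha
    have ha' := mem_Rset.1 ha
    have h9 : |a.sign| = 1 := by
      rcases lt_or_gt_of_ne ha'.1 with h9 | h9
      · rw [Int.sign_eq_neg_one_of_neg h9]; rfl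
      · rw [Int.sign_eq_one_of_pos h9]; rfl
    rw [abs_mul, h9, one_mul, abs_of_nonneg (by positivity)]
    have := hXm _ h3
    push_cast at this
    exact this
  have hfib : ∀ d ∈ F.image (fun a => (dat a, dat (k - a))),
      (F.filter (fun a => (dat a, dat (k - a)) = d)).card ≤ ⌊C * (X : ℝ) ^ ε⌋₊ := by
    intro d hd
    obtain ⟨b, hb, rfl⟩ := Finset.mem_image.1 hd
    obtain ⟨⟨hb1, hb2, hb3, hb4⟩, hb5⟩ := hF b hb
    apply Nat.le_floor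
    refine rk_fiber (M + H) H m m0 ε C hR X hX (b.sign * ((s b : ℤ) * (v b : ℤ)))
      ((k - b).sign * ((s (k - b) : ℤ) * (v (k - b) : ℤ))) k (habs b hb1) (habs _ hb2)
      (e b) (e (k - b)) (h b hb1).2.2.2.2.2.2.1 (h _ hb2).2.2.2.2.2.2.1 _ x (fun a => x (k - a)) ?_
    intro a ha
    obtain ⟨haF, hda⟩ := Finset.mem_filter.1 ha
    obtain ⟨⟨ha1, ha2, ha3, ha4⟩, ha5⟩ := hF a haF
    simp only [dat, Prod.mk.injEq] at hda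
    obtain ⟨⟨q1, q2, q3, q4⟩, q5, q6, q7, q8⟩ := hda
    refine ⟨(h a ha1).2.2.2.2.2.1, (h _ ha2).2.2.2.2.2.1, ?_, ?_, ha5⟩
    · rw [← q1, ← q2, ← q3, ← q4]
      exact hform a ha1
    · rw [← q5, ← q6, ← q7, ← q8]
      exact hform _ ha2
  have hcount := Finset.card_le_mul_card_image F _ hfib
  have himg : (F.image (fun a => (dat a, dat (k - a)))).card ≤ Bx.card ^ 2 := by
    rw [pow_two, ← Finset.card_product]
    apply Finset.card_le_card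
    intro d hd
    obtain ⟨a, ha, rfl⟩ := Finset.mem_image.1 hd
    obtain ⟨⟨ha1, ha2, ha3, ha4⟩, ha5⟩ := hF a ha
    exact Finset.mem_product.2 ⟨hdat a ha1 ha3, hdat _ ha2 ha4⟩
  have hC0 : 0 ≤ C * (X : ℝ) ^ ε := mul_nonneg hC (Real.rpow_nonneg (Nat.cast_nonneg _) _)
  calc (F.card : ℝ) ≤ ((⌊C * (X : ℝ) ^ ε⌋₊ * Bx.card ^ 2 : ℕ) : ℝ) := by
        exact_mod_cast hcount.trans (Nat.mul_le_mul_left _ himg)
    _ = (⌊C * (X : ℝ) ^ ε⌋₊ : ℝ) * (Bx.card : ℝ) ^ 2 := by push_cast; ring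
    _ ≤ _ := by
        gcongr
        exact Nat.floor_le hC0

theorem rkR (M H : ℕ) (hM : 1 ≤ M) (hH : 1 ≤ H) (ε2 : ℝ) (hε2 : 0 < ε2) :
    ∃ m0 : ℕ, 1 ≤ m0 ∧ ∀ m : ℕ, m0 ≤ m → ∀ S : Finset ℕ, ∀ δ : ℝ, 0 < δ → ∃ C : ℝ, 1 ≤ C ∧
      ∀ N X W D : ℕ, 1 ≤ N → 2 ≤ X → W ≤ X → 1 ≤ D → X ≤ W ^ H → N ≤ W ^ (H * m) →
      ∀ k : ℤ, ∀ F : Finset ℤ,
      (∀ a ∈ F, a ∈ Rset S X N ∧ k - a ∈ Rset S X N ∧ radM S M W a ≤ D ∧
        radM S M W (k - a) ≤ D ∧ NoSmallRatio a k ((X : ℤ) ^ m0)) →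
      (F.card : ℝ) ≤ C * (D : ℝ) ^ 4 * ((X : ℝ) ^ ε2 * (N : ℝ) ^ δ) := by
  classical
  obtain ⟨m0', hm0'⟩ := R2 (M + H) (M + H) H ε2 hε2
  refine ⟨max m0' M, hM.trans (le_max_right _ _), ?_⟩
  intro m hm S δ hδ
  have hmM : M ≤ m := (le_max_right _ _).trans hm
  have hMm : M ≤ H * m := hmM.trans (Nat.le_mul_of_pos_left _ hH)
  obtain ⟨CR, hR⟩ := hm0' m ((le_max_left _ _).trans hm)
  obtain ⟨Cs, hCs, h2⟩ := sunit_count S (δ / 4) (by positivity)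
  obtain ⟨Cv, hCv, h3⟩ := small_rad (δ / 4) (by positivity)
  set CR' : ℝ := max CR 1 with hCR'
  have hCR1 : 1 ≤ CR' := le_max_right _ _
  have hCR0 : 0 ≤ CR' := by linarith
  have hHm : (1 : ℝ) ≤ ((H * m : ℕ) : ℝ) := by
    exact_mod_cast (hM.trans hMm : 1 ≤ H * m)
  have hHm' : (1 : ℝ) ≤ ((H * m : ℕ) : ℝ) ^ (M + H) := one_le_pow₀ hHm
  set B : ℝ := CR' * (2 * (Cs * (Cv * ((H * m : ℕ) : ℝ) ^ (M + H)))) ^ 2 with hB
  have hB1 : 1 ≤ B := by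
    have e1 : (1 : ℝ) ≤ Cv * ((H * m : ℕ) : ℝ) ^ (M + H) :=
      one_le_mul_of_one_le_of_one_le hCv hHm'
    have e2 : (1 : ℝ) ≤ Cs * (Cv * ((H * m : ℕ) : ℝ) ^ (M + H)) :=
      one_le_mul_of_one_le_of_one_le hCs e1
    have e3 : (1 : ℝ) ≤ 2 * (Cs * (Cv * ((H * m : ℕ) : ℝ) ^ (M + H))) := by linarith
    exact one_le_mul_of_one_le_of_one_le hCR1 (one_le_pow₀ e3)
  refine ⟨B, hB1, ?_⟩
  intro N X W D hN hX hWX hD hXW hW k F hF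
  have hXpos : 0 < X := by omega
  have q1 := rk_part2 M H m m0' hM hMm ε2 CR' (δ / 4) hCR0 (by
    intro X hX α β k hα hβ e f he hf T hT
    refine (hR X hX α β k hα hβ e f he hf T hT).trans ?_
    exact mul_le_mul_of_nonneg_right (le_max_left _ _)
      (Real.rpow_nonneg (Nat.cast_nonneg _) _)) S Cs Cv hCs hCv N hN (h2 N hN) W D hD
      (h3 D hD N hN) hW X hX hWX hXW k F (by
        intro a ha
        obtain ⟨g1, g2, g3, g4, g5⟩ := hF a ha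
        refine ⟨⟨g1, g2, g3, g4⟩, ?_⟩
        intro p q hp hq hpq
        have hle : (X : ℤ) ^ m0' ≤ (X : ℤ) ^ (max m0' M) :=
          pow_le_pow_right₀ (by exact_mod_cast hXpos) (le_max_left _ _)
        exact g5 p q (hp.trans hle) (hq.trans hle) hpq)
  have hNpos : (0 : ℝ) < N := by exact_mod_cast hN
  have q3 : ((N : ℝ) ^ (δ / 4)) ^ 4 = (N : ℝ) ^ δ := by
    rw [← Real.rpow_natCast ((N : ℝ) ^ (δ / 4)) 4, ← Real.rpow_mul hNpos.le]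
    congr 1
    push_cast
    ring
  refine q1.trans (le_of_eq ?_)
  rw [← q3, hB]
  ring

end Pool.Agent.Helper24.TU
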