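import Pool.Agent.Helper24.TU.AP
import Pool.Agent.Helper24.TU.Geo

/-!
TU-12. From `ap_boundR` to points of projective space.

Proof. As in `Helper91/CPX/Transfer.lean`. `S' = S ∪ primes of the rel L i`, `C0` with `|rel L i * form L i x| ≤ C0 * ht x`, `C0 ≥ 1`, `G1` from `geo`. For a primitive `x` with
`2^k ≤ ht x < 2^(k+1)` (`k = Nat.log 2 (ht x)`; `ht x ≥ 1` since `x` is primitive) and `N = C0 * 2^(k+1)` the vector `a i = rel L i * form L i x` satisfies the hypotheses of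
`ap_boundR` with `S'`, `G = 2 * C0 * G1`: `N ≤ 2 C0 ht x ≤ 2 C0 G1 |form L i x| ≤ G |a i|` (`|rel L i| ≥ 1`); `radS S' (a i) ≤ radS S (form L i x) ≤ (ht x)^lam ≤ N^lam` (a prime outside `S'` dividing
`rel L i * form L i x` divides `form L i x`, so the set of primes is a subset); the two indices for `p ∉ S'` from `two_indices`. `x ↦ a` is injective (`form_injective`).
So the number of `x` with `k` fixed is at most `C N^e = C (C0 2^(k+1))^e`, `e = (n + ε) * lam > 0`, and the sum over `k ≤ Nat.log 2 B` of `2^((k+1) e)` is at most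
`2^(2 e) / (2^e - 1) * B^e` (geometric series). Finiteness: the set is contained in the box.
-/

set_option autoImplicit false

open Pool.Agent.Helper87.Camp Pool.Agent.Helper10 Pool.Agent.Helper91.CPX

namespace Pool.Agent.Helper24.TU

private lemma tr_ht_pos {n : ℕ} (x : Fin (n + 1) → ℤ) (hx : ∀ d : ℤ, (∀ j, d ∣ x j) → IsUnit d) :
    ht x ≠ 0 := by
  intro h
  have h1 : ∀ j, (0 : ℤ) ∣ x j := by
    intro j
    have h2 := le_ht x j
    rw [h] at h2
    have h3 : x j = 0 := Int.natAbs_eq_zero.1 (Nat.le_zero.1 h2)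
    rw [h3]
  exact not_isUnit_zero (hx 0 h1)

private lemma tr_size {n : ℕ} (L : Matrix (Fin (n + 2)) (Fin (n + 1)) ℤ) (x : Fin (n + 1) → ℤ)
    (i : Fin (n + 2)) : (rel L i * form L i x).natAbs ≤
      ((∑ i, (rel L i).natAbs * ∑ j, (L i j).natAbs) + 1) * ht x := by
  have h1 : (form L i x).natAbs ≤ (∑ j, (L i j).natAbs) * ht x := by
    unfold form
    rw [Finset.sum_mul]
    refine (Int.natAbs_sum_le _ _).trans (Finset.sum_le_sum fun j _ => ?_)
    rw [Int.natAbs_mul]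
    exact Nat.mul_le_mul_left _ (le_ht x j)
  calc (rel L i * form L i x).natAbs = (rel L i).natAbs * (form L i x).natAbs := Int.natAbs_mul _ _
    _ ≤ (rel L i).natAbs * ((∑ j, (L i j).natAbs) * ht x) := Nat.mul_le_mul_left _ h1
    _ = ((rel L i).natAbs * ∑ j, (L i j).natAbs) * ht x := by ring
    _ ≤ _ := by
        apply Nat.mul_le_mul_right
        have := Finset.single_le_sum (f := fun i => (rel L i).natAbs * ∑ j, (L i j).natAbs)
          (fun _ _ => Nat.zero_le _) (Finset.mem_univ i)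
        omega

private lemma tr_rad (S S' : Finset ℕ) (hS : S ⊆ S') (r f : ℤ) (hf : f ≠ 0)
    (hrp : ∀ p : ℕ, p.Prime → p ∉ S' → ¬ (p : ℤ) ∣ r) : radS S' (r * f) ≤ radS S f := by
  apply Nat.le_of_dvd (radS_pos S f)
  unfold radS
  apply Finset.prod_dvd_prod_of_subset
  intro p hp
  rw [Finset.mem_filter, Nat.mem_primeFactors] at hp
  obtain ⟨⟨hpp, hpd, -⟩, hpS⟩ := hp
  rw [Finset.mem_filter, Nat.mem_primeFactors]
  refine ⟨⟨hpp, ?_, Int.natAbs_ne_zero.2 hf⟩, fun h => hpS (hS h)⟩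
  have h1 : (p : ℤ) ∣ r * f := Int.natCast_dvd.2 hpd
  exact Int.natCast_dvd.1 (((Nat.prime_iff_prime_int.1 hpp).dvd_or_dvd h1).resolve_left
    (hrp p hpp hpS))

private lemma tr_geom (r : ℝ) (hr : 1 < r) (m : ℕ) :
    ∑ k ∈ Finset.range (m + 1), r ^ (k + 1) ≤ r ^ 2 / (r - 1) * r ^ m := by
  have h0 : 0 < r - 1 := by linarith
  rw [div_mul_eq_mul_div, le_div_iff₀ h0]
  induction m with
  | zero =>
    rw [Finset.sum_range_one]
    have h1 : r ^ (0 + 1) * (r - 1) = r ^ 2 * r ^ 0 - r := by ring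
    linarith
  | succ m ih =>
    rw [Finset.sum_range_succ, add_mul]
    have h1 : r ^ (m + 1 + 1) * (r - 1) = r ^ 2 * r ^ (m + 1) - r ^ 2 * r ^ m := by ring
    linarith

theorem trunc_bound (n : ℕ) (hn : 1 ≤ n) (ε : ℝ) (hε : 0 < ε) :
    ∃ lam0 : ℝ, 0 < lam0 ∧ ∀ lam : ℝ, 0 < lam → lam ≤ lam0 →
      ∀ (S : Finset ℕ) (L : Matrix (Fin (n + 2)) (Fin (n + 1)) ℤ), (∀ i, minor L i ≠ 0) →
      ∃ C : ℝ, ∀ B : ℕ, 1 ≤ B →
        {x : Fin (n + 1) → ℤ | (∀ d : ℤ, (∀ j, d ∣ x j) → IsUnit d) ∧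
          (∀ i, form L i x ≠ 0 ∧ (radS S (form L i x) : ℝ) ≤ (ht x : ℝ) ^ lam) ∧
          ht x ≤ B}.Finite ∧
        ({x : Fin (n + 1) → ℤ | (∀ d : ℤ, (∀ j, d ∣ x j) → IsUnit d) ∧
          (∀ i, form L i x ≠ 0 ∧ (radS S (form L i x) : ℝ) ≤ (ht x : ℝ) ^ lam) ∧
          ht x ≤ B}.ncard : ℝ) ≤ C * (B : ℝ) ^ (((n : ℝ) + ε) * lam) := by
  classical
  obtain ⟨lam0, hlam0, hmain⟩ := ap_boundR n hn ε hε
  refine ⟨lam0, hlam0, fun lam hlam hle S L hL => ?_⟩
  have hrel : ∀ i, rel L i ≠ 0 := by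
    intro i
    unfold rel
    exact mul_ne_zero (pow_ne_zero _ (by norm_num)) (hL i)
  obtain ⟨G1, hG1, hgeo⟩ := geo L hL
  obtain ⟨S', hS'⟩ : ∃ S' : Finset ℕ,
    S' = S ∪ Finset.univ.biUnion (fun i => (rel L i).natAbs.primeFactors) := ⟨_, rfl⟩
  obtain ⟨C0, hC0⟩ : ∃ C0 : ℕ, C0 = (∑ i, (rel L i).natAbs * ∑ j, (L i j).natAbs) + 1 := ⟨_, rfl⟩
  obtain ⟨C, hC1, hC⟩ := hmain lam hlam hle S' (2 * C0 * G1)
  obtain ⟨e, he⟩ : ∃ e : ℝ, e = ((n : ℝ) + ε) * lam := ⟨_, rfl⟩
  have he0 : 0 < e := by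
    rw [he]
    positivity
  have hC0pos : 1 ≤ C0 := by omega
  have hnd : ∀ p : ℕ, p.Prime → p ∉ S' → ∀ i, ¬ (p : ℤ) ∣ rel L i := by
    intro p hp hpS i h1
    rw [hS', Finset.mem_union, not_or] at hpS
    apply hpS.2
    rw [Finset.mem_biUnion]
    refine ⟨i, Finset.mem_univ _, ?_⟩
    rw [Nat.mem_primeFactors]
    exact ⟨hp, Int.natCast_dvd.mp h1, Int.natAbs_ne_zero.mpr (hrel i)⟩
  have hSS : S ⊆ S' := by
    rw [hS']
    exact Finset.subset_union_left
  have hr1 : 1 < (2 : ℝ) ^ e := Real.one_lt_rpow (by norm_num) he0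
  rw [← he]
  refine ⟨C * (C0 : ℝ) ^ e * (((2 : ℝ) ^ e) ^ 2 / ((2 : ℝ) ^ e - 1)), fun B hB => ?_⟩
  obtain ⟨P, hP⟩ : ∃ P : (Fin (n + 1) → ℤ) → Prop, P = fun x =>
    (∀ d : ℤ, (∀ j, d ∣ x j) → IsUnit d) ∧
      (∀ i, form L i x ≠ 0 ∧ (radS S (form L i x) : ℝ) ≤ (ht x : ℝ) ^ lam) ∧ ht x ≤ B := ⟨_, rfl⟩
  obtain ⟨F, hF⟩ : ∃ F : Finset (Fin (n + 1) → ℤ), F =
    (Fintype.piFinset (fun _ => Finset.Icc (-(B : ℤ)) B)).filter P := ⟨_, rfl⟩
  have hset : {x : Fin (n + 1) → ℤ | P x} = (F : Set (Fin (n + 1) → ℤ)) := by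
    ext x
    rw [Set.mem_ofPred_eq, Finset.mem_coe, hF, Finset.mem_filter, Fintype.mem_piFinset]
    constructor
    · intro h
      refine ⟨fun j => ?_, h⟩
      rw [hP] at h
      have h1 := (le_ht x j).trans h.2.2
      rw [Finset.mem_Icc]
      omega
    · intro h
      exact h.2
  have hgoal : {x : Fin (n + 1) → ℤ | P x}.Finite ∧ ({x : Fin (n + 1) → ℤ | P x}.ncard : ℝ) ≤
      C * (C0 : ℝ) ^ e * (((2 : ℝ) ^ e) ^ 2 / ((2 : ℝ) ^ e - 1)) * (B : ℝ) ^ e := by
    rw [hset]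
    refine ⟨F.finite_toSet, ?_⟩
    rw [Set.ncard_coe_finset]
    obtain ⟨f, hf⟩ : ∃ f : (Fin (n + 1) → ℤ) → (Fin (n + 2) → ℤ),
      f = fun x i => rel L i * form L i x := ⟨_, rfl⟩
    have hinj : Function.Injective f := by
      intro x y hxy
      apply form_injective L hL
      intro i
      have := congrFun hxy i
      rw [hf] at this
      exact mul_left_cancel₀ (hrel i) this
    have hfib : ∀ k : ℕ, ((F.filter (fun x => Nat.log 2 (ht x) = k)).card : ℝ) ≤
        C * (C0 : ℝ) ^ e * ((2 : ℝ) ^ e) ^ (k + 1) := by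
      intro k
      rw [← Finset.card_image_of_injective _ hinj]
      have hN : 1 ≤ C0 * 2 ^ (k + 1) := Nat.mul_pos (by omega) (by positivity)
      have key := hC (C0 * 2 ^ (k + 1)) hN
        ((F.filter (fun x => Nat.log 2 (ht x) = k)).image f) (by
        intro a ha
        rw [Finset.mem_image] at ha
        obtain ⟨x, hx, rfl⟩ := ha
        rw [Finset.mem_filter, hF, Finset.mem_filter, hP] at hx
        obtain ⟨⟨-, hx1, hx2, hx3⟩, hxk⟩ := hx
        have hht : ht x ≠ 0 := tr_ht_pos x hx1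
        have hlo : 2 ^ k ≤ ht x := by
          have := Nat.pow_log_le_self 2 hht
          rwa [hxk] at this
        have hup : ht x < 2 ^ (k + 1) := by
          have := Nat.lt_pow_succ_log_self (b := 2) (by norm_num) (ht x)
          rwa [hxk] at this
        rw [hf]
        refine ⟨fun i => ⟨mul_ne_zero (hrel i) (hx2 i).1, ?_, ?_⟩, rel_form_sum L x, ?_, ?_, ?_⟩
        · refine (tr_size L x i).trans ?_
          rw [← hC0]
          exact Nat.mul_le_mul_left _ hup.le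
        · have h1 : radS S' (rel L i * form L i x) ≤ radS S (form L i x) :=
            tr_rad S S' hSS _ _ (hx2 i).1 fun p hp hpS => hnd p hp hpS i
          have h2 : (radS S' (rel L i * form L i x) : ℝ) ≤ radS S (form L i x) := by
            exact_mod_cast h1
          refine h2.trans ((hx2 i).2.trans ?_)
          apply Real.rpow_le_rpow (Nat.cast_nonneg _) _ hlam.le
          have h3 : ht x ≤ C0 * 2 ^ (k + 1) := by
            calc ht x ≤ 1 * 2 ^ (k + 1) := by omega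
              _ ≤ C0 * 2 ^ (k + 1) := Nat.mul_le_mul_right _ hC0pos
          exact_mod_cast h3
        · obtain ⟨⟨i, hi⟩, -⟩ := hgeo x hx1
          refine ⟨i, ?_⟩
          have h1 : ht x ≤ G1 * (form L i x).natAbs := by
            have h2 : (ht x : ℤ) ≤ ((G1 * (form L i x).natAbs : ℕ) : ℤ) := by
              push_cast
              rw [← Int.natCast_natAbs] at hi
              simpa using hi
            exact_mod_cast h2
          have h2 : 1 ≤ (rel L i).natAbs := Nat.one_le_iff_ne_zero.2 (Int.natAbs_ne_zero.2 (hrel i))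
          have h3 : C0 * 2 ^ (k + 1) ≤ 2 * C0 * G1 * (rel L i * form L i x).natAbs := by
            calc C0 * 2 ^ (k + 1) = 2 * C0 * 2 ^ k := by ring
              _ ≤ 2 * C0 * ht x := Nat.mul_le_mul_left _ hlo
              _ ≤ 2 * C0 * (G1 * (form L i x).natAbs) := Nat.mul_le_mul_left _ h1
              _ = 2 * C0 * G1 * (1 * (form L i x).natAbs) := by ring
              _ ≤ 2 * C0 * G1 * ((rel L i).natAbs * (form L i x).natAbs) :=
                  Nat.mul_le_mul_left _ (Nat.mul_le_mul_right _ h2)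
              _ = _ := by rw [Int.natAbs_mul]
          rw [← Int.natCast_natAbs]
          exact_mod_cast h3
        · intro g hg
          have h1 := (hgeo x hx1).2 g hg
          have h2 : G1 ≤ 2 * C0 * G1 := by
            calc G1 = 1 * G1 := (one_mul _).symm
              _ ≤ 2 * C0 * G1 := Nat.mul_le_mul_right _ (by omega)
          have h3 : (G1 : ℤ) ≤ ((2 * C0 * G1 : ℕ) : ℤ) := by exact_mod_cast h2
          exact h1.trans h3
        · intro p hp hpS
          have hp' : Prime (p : ℤ) := Nat.prime_iff_prime_int.mp hp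
          obtain ⟨j, l, hjl, hj, hl⟩ := two_indices L x hx1 p hp (hnd p hp hpS)
          refine ⟨j, l, hjl, fun h => ?_, fun h => ?_⟩
          · exact (hp'.dvd_or_dvd h).elim (hnd p hp hpS j) hj
          · exact (hp'.dvd_or_dvd h).elim (hnd p hp hpS l) hl)
      refine key.trans (le_of_eq ?_)
      rw [← he]
      push_cast
      rw [Real.mul_rpow (by positivity) (by positivity), ← Real.rpow_natCast, ← Real.rpow_natCast,
        ← Real.rpow_mul (by norm_num), ← Real.rpow_mul (by norm_num), mul_comm ((k + 1 : ℕ) : ℝ) e]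
      ring
    have hmaps : ∀ x ∈ F, Nat.log 2 (ht x) ∈ Finset.range (Nat.log 2 B + 1) := by
      intro x hx
      rw [hF, Finset.mem_filter, hP] at hx
      rw [Finset.mem_range]
      have := Nat.log_mono_right (b := 2) hx.2.2.2
      omega
    rw [Finset.card_eq_sum_card_fiberwise hmaps]
    push_cast
    calc ∑ k ∈ Finset.range (Nat.log 2 B + 1),
        ((F.filter (fun x => Nat.log 2 (ht x) = k)).card : ℝ)
        ≤ ∑ k ∈ Finset.range (Nat.log 2 B + 1), C * (C0 : ℝ) ^ e * ((2 : ℝ) ^ e) ^ (k + 1) :=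
          Finset.sum_le_sum fun k _ => hfib k
      _ = C * (C0 : ℝ) ^ e * ∑ k ∈ Finset.range (Nat.log 2 B + 1), ((2 : ℝ) ^ e) ^ (k + 1) := by
          rw [Finset.mul_sum]
      _ ≤ C * (C0 : ℝ) ^ e * (((2 : ℝ) ^ e) ^ 2 / ((2 : ℝ) ^ e - 1) *
            ((2 : ℝ) ^ e) ^ (Nat.log 2 B)) :=
          mul_le_mul_of_nonneg_left (tr_geom _ hr1 _) (by positivity)
      _ ≤ C * (C0 : ℝ) ^ e * (((2 : ℝ) ^ e) ^ 2 / ((2 : ℝ) ^ e - 1) * (B : ℝ) ^ e) := by
          have h1 : ((2 : ℝ) ^ e) ^ (Nat.log 2 B) ≤ (B : ℝ) ^ e := by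
            rw [← Real.rpow_natCast, ← Real.rpow_mul (by norm_num), mul_comm,
              Real.rpow_mul (by norm_num), Real.rpow_natCast]
            apply Real.rpow_le_rpow (by positivity) _ he0.le
            have h2 : 2 ^ Nat.log 2 B ≤ B := Nat.pow_log_le_self 2 (by omega)
            exact_mod_cast h2
          have h2 : 0 ≤ ((2 : ℝ) ^ e) ^ 2 / ((2 : ℝ) ^ e - 1) :=
            div_nonneg (by positivity) (by linarith)
          have h3 : 0 ≤ C * (C0 : ℝ) ^ e := by positivity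
          exact mul_le_mul_of_nonneg_left (mul_le_mul_of_nonneg_left h1 h2) h3
      _ = _ := by ring
  rw [hP] at hgoal
  exact hgoal

end Pool.Agent.Helper24.TU
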